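import Mathlib

/-!
# The 3-graph of a graph with linearly ordered vertices
-/

namespace Pool.Agent.H7.OG

open Finset

open Classical in
/-- **The 3-graph of an ordered graph.** For a graph `G` with the vertices `0 < 1 < … < n - 1`
this is the set of all triples `x < y < z` such that `y z` is an edge of `G` and `x y`, `x z` are
not both edges of `G`. -/
noncomputable def triples {n : ℕ} (G : SimpleGraph (Fin n)) : Finset (Finset (Fin n)) :=
  univ.filter fun e => ∃ x y z : Fin n, x < y ∧ y < z ∧ e = {x, y, z} ∧
    G.Adj y z ∧ ¬ (G.Adj x y ∧ G.Adj x z)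

/-- The family `H` of triples contains no `K_4^3`: no four vertices such that all four triples of
them belong to `H`. -/
def CliqueFree {n : ℕ} (H : Finset (Finset (Fin n))) : Prop :=
  ∀ S : Finset (Fin n), S.card = 4 → ¬ S.powersetCard 3 ⊆ H

open Classical in
/-- The number of the triples `x < y < z < m` of vertices such that `y z` is an edge, and `x y`
and `x z` are not edges. -/
noncomputable def upper {n : ℕ} (G : SimpleGraph (Fin n)) (m : ℕ) : ℕ :=
  (univ.filter fun p : Fin n × Fin n × Fin n => p.1 < p.2.1 ∧ p.2.1 < p.2.2 ∧ p.2.2.val < m ∧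
    G.Adj p.2.1 p.2.2 ∧ ¬ G.Adj p.1 p.2.1 ∧ ¬ G.Adj p.1 p.2.2).card

open Classical in
/-- The number of the triples `x < y < z < m` of vertices such that `y z` is not an edge and
exactly one of `x y` and `x z` is an edge. -/
noncomputable def lower {n : ℕ} (G : SimpleGraph (Fin n)) (m : ℕ) : ℕ :=
  (univ.filter fun p : Fin n × Fin n × Fin n => p.1 < p.2.1 ∧ p.2.1 < p.2.2 ∧ p.2.2.val < m ∧
    ¬ G.Adj p.2.1 p.2.2 ∧ (G.Adj p.1 p.2.1 ↔ ¬ G.Adj p.1 p.2.2)).card

open Classical in
/-- The number of the triangles of `G` in the set of the first `m` vertices `0, …, m - 1`. -/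
noncomputable def triangles {n : ℕ} (G : SimpleGraph (Fin n)) (m : ℕ) : ℕ :=
  (univ.filter fun p : Fin n × Fin n × Fin n => p.1 < p.2.1 ∧ p.2.1 < p.2.2 ∧ p.2.2.val < m ∧
    G.Adj p.2.1 p.2.2 ∧ G.Adj p.1 p.2.1 ∧ G.Adj p.1 p.2.2).card

open Classical in
/-- The number of the edges of `G` in the set of the first `m` vertices `0, …, m - 1`. -/
noncomputable def edges {n : ℕ} (G : SimpleGraph (Fin n)) (m : ℕ) : ℕ :=
  (univ.filter fun p : Fin n × Fin n => p.1 < p.2 ∧ p.2.val < m ∧ G.Adj p.1 p.2).card

/-- The number of edges of Turán's construction with three classes whose sizes `⌊n/3⌋`,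
`⌊(n+1)/3⌋`, `⌊(n+2)/3⌋` are as equal as possible: all triples with a vertex in each of the classes,
and all triples with two vertices in a class and one in the next class (cyclically). -/
def turan (n : ℕ) : ℕ :=
  (n / 3).choose 2 * ((n + 1) / 3) + ((n + 1) / 3).choose 2 * ((n + 2) / 3)
    + ((n + 2) / 3).choose 2 * (n / 3) + (n / 3) * ((n + 1) / 3) * ((n + 2) / 3)

/-- The number of vertices in the first part: `2 ⌊(n + 1) / 3⌋`. -/
def cut (n : ℕ) : ℕ := 2 * ((n + 1) / 3)

theorem mem_triples {n : ℕ} (G : SimpleGraph (Fin n)) {x y z : Fin n} (hxy : x < y) (hyz : y < z) :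
    ({x, y, z} : Finset (Fin n)) ∈ triples G ↔ G.Adj y z ∧ ¬ (G.Adj x y ∧ G.Adj x z) := by
  classical
  constructor
  · intro h
    simp only [triples, mem_filter, mem_univ, true_and] at h
    obtain ⟨x', y', z', h1, h2, h3, h4⟩ := h
    have a1 : x ∈ ({x', y', z'} : Finset (Fin n)) := h3 ▸ by simp
    have a2 : y ∈ ({x', y', z'} : Finset (Fin n)) := h3 ▸ by simp
    have a3 : z ∈ ({x', y', z'} : Finset (Fin n)) := h3 ▸ by simp
    have b1 : x' ∈ ({x, y, z} : Finset (Fin n)) := h3.symm ▸ by simp
    have b3 : z' ∈ ({x, y, z} : Finset (Fin n)) := h3.symm ▸ by simp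
    simp only [mem_insert, mem_singleton] at a1 a2 a3 b1 b3
    have c1 : x = x' := by
      have d1 : x' ≤ x := by
        rcases a1 with h | h | h
        · exact h.ge
        · exact h ▸ h1.le
        · exact h ▸ (h1.trans h2).le
      have d2 : x ≤ x' := by
        rcases b1 with h | h | h
        · exact h.ge
        · exact h ▸ hxy.le
        · exact h ▸ (hxy.trans hyz).le
      exact le_antisymm d2 d1
    have c3 : z = z' := by
      have d1 : z ≤ z' := by
        rcases a3 with h | h | h
        · exact h ▸ (h1.trans h2).le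
        · exact h ▸ h2.le
        · exact h.le
      have d2 : z' ≤ z := by
        rcases b3 with h | h | h
        · exact h ▸ (hxy.trans hyz).le
        · exact h ▸ hyz.le
        · exact h.le
      exact le_antisymm d1 d2
    have c2 : y = y' := by
      rcases a2 with h | h | h
      · exact absurd (h.trans c1.symm) hxy.ne'
      · exact h
      · exact absurd (h.trans c3.symm) hyz.ne
    subst c1 c2 c3
    exact h4
  · intro h
    simp only [triples, mem_filter, mem_univ, true_and]
    exact ⟨x, y, z, hxy, hyz, rfl, h⟩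

/-- The 3-graph of an ordered graph contains no `K_4^3`. -/
theorem triples_cliqueFree {n : ℕ} (G : SimpleGraph (Fin n)) : CliqueFree (triples G) := by
  classical
  intro S hS hsub
  set f := S.orderEmbOfFin hS with hf
  have hmem : ∀ i, f i ∈ S := fun i => S.orderEmbOfFin_mem hS i
  have h01 : f 0 < f 1 := f.strictMono (by decide)
  have h12 : f 1 < f 2 := f.strictMono (by decide)
  have h23 : f 2 < f 3 := f.strictMono (by decide)
  have key : ∀ x y z : Fin 4, f x < f y → f y < f z → ({f x, f y, f z} : Finset (Fin n)) ∈ triples G := by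
    intro x y z hxy hyz
    apply hsub
    rw [mem_powersetCard]
    constructor
    · intro w hw
      simp only [mem_insert, mem_singleton] at hw
      rcases hw with h | h | h <;> rw [h] <;> exact hmem _
    · rw [card_insert_of_notMem, card_pair hyz.ne]
      simp only [mem_insert, mem_singleton, not_or]
      exact ⟨hxy.ne, (hxy.trans hyz).ne⟩
  have t1 := (mem_triples G h01 h12).1 (key 0 1 2 h01 h12)
  have t2 := (mem_triples G h01 (h12.trans h23)).1 (key 0 1 3 h01 (h12.trans h23))
  have t3 := (mem_triples G h12 h23).1 (key 1 2 3 h12 h23)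
  exact t3.2 ⟨t1.1, t2.1⟩

end Pool.Agent.H7.OG
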