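import Pool.Agent.H7.OG.Bip
import Pool.Agent.H7.OG.Defs

/-!
# From graphs on `Fin n` to adjacency functions
-/

namespace Pool.Agent.H7.OG

open Finset

open Classical in
/-- The adjacency function of a graph. -/
noncomputable def adj {n : ℕ} (G : SimpleGraph (Fin n)) (i j : ℕ) : ℤ :=
  if ∃ (hi : i < n) (hj : j < n), G.Adj ⟨i, hi⟩ ⟨j, hj⟩ then 1 else 0

theorem adj_fin {n : ℕ} (G : SimpleGraph (Fin n)) (i j : Fin n) [Decidable (G.Adj i j)] :
    adj G i j = if G.Adj i j then 1 else 0 := by
  classical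
  unfold adj
  by_cases h : G.Adj i j
  · rw [if_pos h, if_pos ⟨i.2, j.2, h⟩]
  · rw [if_neg h, if_neg]
    rintro ⟨hi, hj, h'⟩
    exact h h'

theorem adj_symm {n : ℕ} (G : SimpleGraph (Fin n)) (i j : ℕ) : adj G i j = adj G j i := by
  classical
  unfold adj
  congr 1
  apply propext
  constructor
  · rintro ⟨hi, hj, h⟩; exact ⟨hj, hi, h.symm⟩
  · rintro ⟨hi, hj, h⟩; exact ⟨hj, hi, h.symm⟩

theorem adj_01 {n : ℕ} (G : SimpleGraph (Fin n)) (i j : ℕ) : adj G i j = 0 ∨ adj G i j = 1 := by
  classical
  unfold adj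
  split_ifs
  · right; rfl
  · left; rfl

theorem cnt_eq (n : ℕ) (a : ℕ → ℕ → ℤ) :
    cnt n a = ∑ z ∈ range n, ∑ y ∈ range n, ∑ x ∈ range n,
      if x < y ∧ y < z then a y z * (1 - a x y * a x z) else 0 := by
  unfold cnt
  refine sum_congr rfl fun z hz => ?_
  have hz' := mem_range.1 hz
  have h1 : ∑ y ∈ range z, a y z * ∑ x ∈ range y, (1 - a x y * a x z)
      = ∑ y ∈ range z, ∑ x ∈ range n,
        if x < y ∧ y < z then a y z * (1 - a x y * a x z) else 0 := by
    refine sum_congr rfl fun y hy => ?_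
    have hy' := mem_range.1 hy
    rw [mul_sum]
    have h2 : ∑ x ∈ range y, a y z * (1 - a x y * a x z)
        = ∑ x ∈ range y, if x < y ∧ y < z then a y z * (1 - a x y * a x z) else 0 := by
      refine sum_congr rfl fun x hx => ?_
      rw [if_pos ⟨mem_range.1 hx, hy'⟩]
    rw [h2]
    apply sum_subset
    · intro x hx; exact mem_range.2 (by have := mem_range.1 hx; omega)
    · intro x _ hx
      rw [if_neg]
      intro h
      exact hx (mem_range.2 h.1)
  rw [h1]
  apply sum_subset
  · intro x hx; exact mem_range.2 (by have := mem_range.1 hx; omega)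
  · intro y _ hy
    refine sum_eq_zero fun x _ => ?_
    rw [if_neg]
    intro h
    exact hy (mem_range.2 h.2)

theorem card_triples {n : ℕ} (G : SimpleGraph (Fin n)) : ((triples G).card : ℤ) = cnt n (adj G) := by
  classical
  set T : Finset (Fin n × Fin n × Fin n) := univ.filter fun p =>
    (p.2.2 < p.2.1 ∧ p.2.1 < p.1) ∧ G.Adj p.2.1 p.1 ∧ ¬ (G.Adj p.2.2 p.2.1 ∧ G.Adj p.2.2 p.1) with hT
  have h1 : T.card = (triples G).card := by
    refine card_bij (fun p _ => {p.2.2, p.2.1, p.1}) ?_ ?_ ?_
    · rintro ⟨z, y, x⟩ hp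
      simp only [hT, mem_filter, mem_univ, true_and] at hp
      exact (mem_triples G hp.1.1 hp.1.2).2 hp.2
    · rintro ⟨z, y, x⟩ hp ⟨z', y', x'⟩ hp' h3
      simp only [hT, mem_filter, mem_univ, true_and] at hp hp'
      simp only at h3
      obtain ⟨⟨h1, h2⟩, -⟩ := hp'
      obtain ⟨⟨hxy, hyz⟩, -⟩ := hp
      have a1 : x ∈ ({x', y', z'} : Finset (Fin n)) := h3 ▸ by simp
      have a2 : y ∈ ({x', y', z'} : Finset (Fin n)) := h3 ▸ by simp
      have a3 : z ∈ ({x', y', z'} : Finset (Fin n)) := h3 ▸ by simp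
      have b1 : x' ∈ ({x, y, z} : Finset (Fin n)) := h3.symm ▸ by simp
      have b3 : z' ∈ ({x, y, z} : Finset (Fin n)) := h3.symm ▸ by simp
      simp only [mem_insert, mem_singleton] at a1 a2 a3 b1 b3
      have c1 : x = x' := by
        have d1 : x' ≤ x := by
          rcases a1 with h | h | h
          · exact h.ge
          · exact h ▸ h1.le
          · exact h ▸ (h1.trans h2).le
        have d2 : x ≤ x' := by
          rcases b1 with h | h | h
          · exact h.ge
          · exact h ▸ hxy.le
          · exact h ▸ (hxy.trans hyz).le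
        exact le_antisymm d2 d1
      have c3 : z = z' := by
        have d1 : z ≤ z' := by
          rcases a3 with h | h | h
          · exact h ▸ (h1.trans h2).le
          · exact h ▸ h2.le
          · exact h.le
        have d2 : z' ≤ z := by
          rcases b3 with h | h | h
          · exact h ▸ (hxy.trans hyz).le
          · exact h ▸ hyz.le
          · exact h.le
        exact le_antisymm d1 d2
      have c2 : y = y' := by
        rcases a2 with h | h | h
        · exact absurd (h.trans c1.symm) hxy.ne'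
        · exact h
        · exact absurd (h.trans c3.symm) hyz.ne
      rw [c1, c2, c3]
    · intro e he
      simp only [triples, mem_filter, mem_univ, true_and] at he
      obtain ⟨x, y, z, h1, h2, h3, h4⟩ := he
      refine ⟨(z, y, x), ?_, h3.symm⟩
      simp only [hT, mem_filter, mem_univ, true_and]
      exact ⟨⟨h1, h2⟩, h4⟩
  rw [← h1, cnt_eq, hT, card_filter]
  push_cast
  rw [Finset.sum_range (n := n)]
  rw [Fintype.sum_prod_type]
  refine sum_congr rfl fun z _ => ?_
  rw [Finset.sum_range (n := n)]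
  rw [Fintype.sum_prod_type]
  refine sum_congr rfl fun y _ => ?_
  rw [Finset.sum_range (n := n)]
  refine sum_congr rfl fun x _ => ?_
  simp only [Fin.lt_def]
  rw [adj_fin, adj_fin, adj_fin]
  by_cases h1 : x.1 < y.1 ∧ y.1 < z.1
  · by_cases h2 : G.Adj y z <;> by_cases h3 : G.Adj x y <;> by_cases h4 : G.Adj x z <;>
      simp [h1, h2, h3, h4]
  · rw [if_neg h1, if_neg]
    intro h
    exact h1 h.1

end Pool.Agent.H7.OG
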