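import Pool.Agent.H7.OG.Cert
import Pool.Agent.H7.OG.Bridge

/-!
# The bound for all ordered graphs
-/

namespace Pool.Agent.H7.OG

open Finset

section

variable (k : ℕ) (a : ℕ → ℕ → ℤ)

theorem cc_abs (t i m : ℕ) : |cc t i m| ≤ 262144 := abs_le.2 (dig_abs _ _)

theorem GG_abs (m sa ra sb rb r : ℕ) : |GG k a m sa ra sb rb r| ≤ 786432 := by
  unfold GG
  split_ifs
  · norm_num
  · rw [sum_range_succ, sum_range_succ, sum_range_one]
    refine (abs_add_le _ _).trans ?_
    refine (add_le_add_left (abs_add_le _ _) _).trans ?_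
    have h0 := cc_abs (ty sa sb (ee k a sa ra sb rb))
      (fc (slot ra rb r) 0 (ee k a sa ra 0 r) (ee k a sb rb 0 r)) m
    have h1 := cc_abs (ty sa sb (ee k a sa ra sb rb))
      (fc (slot ra rb r) 1 (ee k a sa ra 1 r) (ee k a sb rb 1 r)) m
    have h2 := cc_abs (ty sa sb (ee k a sa ra sb rb))
      (fc (slot ra rb r) 2 (ee k a sa ra 2 r) (ee k a sb rb 2 r)) m
    linarith

theorem S2_psi (ra rb : ℕ) :
    -(297 * 618475290624 * (k : ℤ)) ≤ 2 * S2 k (fun c d => psi k a ra rb c d) := by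
  have e1 : S2 k (fun c d => psi k a ra rb c d)
      = ∑ sa ∈ range 3, ∑ sb ∈ range 3, ∑ m ∈ range 33,
        S2 k (fun c d => GG k a m sa ra sb rb c * GG k a m sa ra sb rb d) := by
    unfold psi
    rw [S2_sum k 3 (fun c d sa => ∑ sb ∈ range 3, ∑ m ∈ range 33,
      GG k a m sa ra sb rb c * GG k a m sa ra sb rb d)]
    refine sum_congr rfl fun sa _ => ?_
    rw [S2_sum k 3 (fun c d sb => ∑ m ∈ range 33,
      GG k a m sa ra sb rb c * GG k a m sa ra sb rb d)]
    refine sum_congr rfl fun sb _ => ?_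
    rw [S2_sum k 33 (fun c d m => GG k a m sa ra sb rb c * GG k a m sa ra sb rb d)]
  have e2 : ∀ m sa sb : ℕ, -(618475290624 * (k : ℤ))
      ≤ 2 * S2 k (fun c d => GG k a m sa ra sb rb c * GG k a m sa ra sb rb d) := by
    intro m sa sb
    rw [S2_prod]
    have h1 : ∑ i ∈ range k, GG k a m sa ra sb rb i ^ 2 ≤ ∑ _i ∈ range k, (618475290624 : ℤ) := by
      refine sum_le_sum fun i _ => ?_
      have := GG_abs k a m sa ra sb rb i
      rw [← sq_abs]
      have h2 := abs_nonneg (GG k a m sa ra sb rb i)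
      nlinarith
    rw [sum_const, card_range, nsmul_eq_mul] at h1
    have h2 := sq_nonneg (∑ i ∈ range k, GG k a m sa ra sb rb i)
    linarith
  rw [e1, mul_sum]
  have e3 : ∑ _sa ∈ range 3, ∑ _sb ∈ range 3, ∑ _m ∈ range 33, (-(618475290624 * (k : ℤ)))
      ≤ ∑ sa ∈ range 3, 2 * ∑ sb ∈ range 3, ∑ m ∈ range 33,
        S2 k (fun c d => GG k a m sa ra sb rb c * GG k a m sa ra sb rb d) := by
    refine sum_le_sum fun sa _ => ?_
    rw [mul_sum]
    refine sum_le_sum fun sb _ => ?_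
    rw [mul_sum]
    exact sum_le_sum fun m _ => e2 m sa sb
  refine le_trans (le_of_eq ?_) e3
  simp only [sum_const, card_range, nsmul_eq_mul]
  push_cast
  ring

theorem psi_sum :
    -(297 * 618475290624 * (k : ℤ) ^ 2 * (k - 1))
      ≤ 4 * S2 k (fun ra rb => S2 k (fun c d => psi k a ra rb c d)) := by
  have h1 : S2 k (fun _ _ => -(297 * 618475290624 * (k : ℤ)) * 1)
      ≤ S2 k (fun ra rb => 2 * S2 k (fun c d => psi k a ra rb c d)) :=
    S2_le fun ra rb _ _ => by rw [mul_one]; exact S2_psi k a ra rb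
  rw [S2_mul, S2_mul] at h1
  have h2 := S2_const k
  have h3 : 2 * (-(297 * 618475290624 * (k : ℤ)) * S2 k (fun _ _ => 1))
      = -(297 * 618475290624 * (k : ℤ) ^ 2 * (k - 1)) := by
    linear_combination (-(297 * 618475290624 * (k : ℤ))) * h2
  linarith

theorem psi_zero1 (ra rb d : ℕ) : psi k a ra rb ra d = 0 := by
  unfold psi GG; simp

theorem psi_zero2 (ra rb d : ℕ) : psi k a ra rb rb d = 0 := by
  unfold psi GG; simp

theorem psi_zero3 (ra rb c : ℕ) : psi k a ra rb c ra = 0 := by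
  unfold psi GG; simp

theorem psi_zero4 (ra rb c : ℕ) : psi k a ra rb c rb = 0 := by
  unfold psi GG; simp

/-- The sum over all sorted quadruples of ranks. -/
theorem quad_sum (hs : ∀ i j, a i j = a j i) (ha : ∀ i j, a i j = 0 ∨ a i j = 1) :
    0 ≤ 81 * 38201157117 * S4 k (fun _ _ _ _ => 1)
      - 51539607552 * (((k : ℤ) - 3) * S3 k (zeta k a))
      - 4 * S2 k (fun ra rb => S2 k (fun c d => psi k a ra rb c d)) := by
  rw [pairs_two k (psi k a) (psi_zero1 k a) (psi_zero2 k a) (psi_zero3 k a) (psi_zero4 k a),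
    ← S4_triples k (zeta k a), ← S4_mul, ← S4_mul]
  have e : ∀ X Y Z : ℤ, X - Y - Z = X + (-1) * Y + (-1) * Z := fun X Y Z => by ring
  have z : S4 k (fun _ _ _ _ => (0 : ℤ)) = 0 := by simp [S4, S3, S2]
  rw [e, ← S4_mul, ← S4_mul, ← S4_mul, ← S4_add, ← S4_add, ← z]
  refine S4_le fun r0 r1 r2 r3 h0 h1 h2 h3 => ?_
  have := quad k a hs ha h0 h1 h2 h3
  linarith

theorem fold_bound (hs : ∀ i j, a i j = a j i) (ha : ∀ i j, a i j = 0 ∨ a i j = 1) (hk : 4 ≤ k) :
    72 * 17179869184 * S3 k (zeta k a)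
      ≤ 81 * 38201157117 * (k : ℤ) ^ 3 + 72 * 297 * 618475290624 * (k : ℤ) ^ 2 := by
  have h1 := quad_sum k a hs ha
  have h2 := psi_sum k a
  have h3 := S4_const k
  have hk' : (4 : ℤ) ≤ k := by exact_mod_cast hk
  have h4 : (72 * 17179869184 * S3 k (zeta k a)) * ((k : ℤ) - 3)
      ≤ (81 * 38201157117 * (k : ℤ) ^ 3 + 72 * 297 * 618475290624 * (k : ℤ) ^ 2) * ((k : ℤ) - 3) := by
    have h5 : 24 * (81 * 38201157117 * S4 k (fun _ _ _ _ => 1))
        = 81 * 38201157117 * (k * ((k : ℤ) - 1) * (k - 2) * (k - 3)) := by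
      rw [← h3]; ring
    have h6 : (81 * 38201157117 * (k * ((k : ℤ) - 1) * (k - 2) * (k - 3)))
        ≤ 81 * 38201157117 * (k : ℤ) ^ 3 * (k - 3) := by
      have : (k : ℤ) * (k - 1) * (k - 2) ≤ k ^ 3 := by nlinarith
      have h7 : (k : ℤ) * (k - 1) * (k - 2) * (k - 3) ≤ k ^ 3 * (k - 3) :=
        mul_le_mul_of_nonneg_right this (by linarith)
      nlinarith
    have h8 : 24 * (297 * 618475290624 * (k : ℤ) ^ 2 * (k - 1))
        ≤ 72 * 297 * 618475290624 * (k : ℤ) ^ 2 * (k - 3) := by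
      have : (k : ℤ) - 1 ≤ 3 * (k - 3) := by linarith
      have h9 : (k : ℤ) ^ 2 * (k - 1) ≤ k ^ 2 * (3 * (k - 3)) :=
        mul_le_mul_of_nonneg_left this (by positivity)
      nlinarith
    linarith
  exact le_of_mul_le_mul_right h4 (by linarith)

theorem cnt_bound (hs : ∀ i j, a i j = a j i) (h0 : ∀ i, a i i = 0)
    (ha : ∀ i j, a i j = 0 ∨ a i j = 1) (hk : 4 ≤ k) :
    72 * 17179869184 * cnt (3 * k) a
      ≤ 81 * 38201157117 * (k : ℤ) ^ 3
        + (72 * 297 * 618475290624 + 972 * 17179869184) * (k : ℤ) ^ 2 := by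
  have h1 := fold_bound k a hs ha hk
  have h2 := cnt_fold k a hs h0 ha
  linarith

end

/-- The numerical bound. -/
theorem cnt_num (n : ℕ) (a : ℕ → ℕ → ℤ) (hs : ∀ i j, a i j = a j i) (h0 : ∀ i, a i i = 0)
    (ha : ∀ i j, a i j = 0 ∨ a i j = 1) : 60000 * cnt n a ≤ 5559 * (n : ℤ) ^ 3 := by
  rcases Nat.eq_zero_or_pos n with hn | hn
  · subst hn; simp [cnt]
  set C : ℤ := 72 * 297 * 618475290624 + 972 * 17179869184 with hC
  have key : ∀ j : ℕ, 4 ≤ j →
      (j : ℤ) * (1944 * 17179869184 * cnt n a - 81 * 38201157117 * (n : ℤ) ^ 3) ≤ C * (n : ℤ) ^ 2 := by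
    intro j hj
    have hnj : 4 ≤ n * j := le_trans hj (Nat.le_mul_of_pos_left j hn)
    have h1 := blowup n (3 * j) a hs h0 ha
    have h2 := cnt_bound (n * j) (fun i l => a (i / (3 * j)) (l / (3 * j))) (fun i l => hs _ _)
      (fun i => h0 _) (fun i l => ha _ _) hnj
    have h3 : n * (3 * j) = 3 * (n * j) := by ring
    rw [h3] at h1
    rw [← hC] at h2
    push_cast at h1 h2
    have hj' : (0 : ℤ) < (j : ℤ) ^ 2 := by
      have : (0 : ℤ) < j := by exact_mod_cast (by omega : 0 < j)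
      positivity
    have h4 : ((j : ℤ) * (1944 * 17179869184 * cnt n a - 81 * 38201157117 * (n : ℤ) ^ 3)) * (j : ℤ) ^ 2
        ≤ (C * (n : ℤ) ^ 2) * (j : ℤ) ^ 2 := by
      nlinarith
    exact le_of_mul_le_mul_right h4 hj'
  have h5 : 1944 * 17179869184 * cnt n a ≤ 81 * 38201157117 * (n : ℤ) ^ 3 := by
    by_contra hcon
    have h6 : 1 ≤ 1944 * 17179869184 * cnt n a - 81 * 38201157117 * (n : ℤ) ^ 3 := by
      have := not_le.1 hcon
      omega
    have hCn : 0 ≤ C * (n : ℤ) ^ 2 := by positivity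
    have h7 := key ((C * (n : ℤ) ^ 2).toNat + 4) (by omega)
    push_cast at h7
    rw [Int.toNat_of_nonneg hCn] at h7
    nlinarith
  have h8 : (0 : ℤ) ≤ (n : ℤ) ^ 3 := by positivity
  linarith

/-- **Numerical bound for all ordered graphs.** -/
theorem triples_num (n : ℕ) (G : SimpleGraph (Fin n)) :
    60000 * (triples G).card ≤ 5559 * n ^ 3 := by
  have h := cnt_num n (adj G) (adj_symm G) (fun i => by
    classical
    unfold adj
    rw [if_neg]
    rintro ⟨h1, h2, h3⟩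
    exact G.loopless.irrefl _ h3) (adj_01 G)
  rw [← card_triples] at h
  exact_mod_cast h

end Pool.Agent.H7.OG
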