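import Pool.Agent.H7.OG.Main

/-!
# Ordered graphs: the first part bipartite, the second part complete
-/

namespace Pool.Agent.H7.OG

open Finset

theorem cnt_clique (m c : ℕ) (a : ℕ → ℕ → ℤ) (P : ℕ → ℤ)
    (ha : ∀ i j, a i j = 0 ∨ a i j = 1) (hP : ∀ i, P i = 0 ∨ P i = 1)
    (hL : ∀ u v, u < v → v < m → a u v = 0 ∨ P u ≠ P v)
    (hC : ∀ i j, i < j → j < c → a (m + i) (m + j) = 1) :
    2 * cnt (m + c) a
      = 2 * ∑ y ∈ range m, ∑ x ∈ range y, a x y * (x - ∑ l ∈ range c, a x (m + l) * a y (m + l))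
        + ∑ u ∈ range m, (2 * u * (∑ l ∈ range c, a u (m + l))
            - ((∑ l ∈ range c, a u (m + l)) ^ 2 - ∑ l ∈ range c, a u (m + l)))
        + m * c * (c - 1) := by
  have e0 := cnt_split m c a
  have e1 : ∑ z ∈ range m, ∑ y ∈ range z, a y z * ∑ x ∈ range y, (1 - a x y * a x z)
      = ∑ z ∈ range m, ∑ y ∈ range z, a y z * y := by
    refine sum_congr rfl fun z hz => sum_congr rfl fun y hy => ?_
    have hz' := mem_range.1 hz
    have hy' := mem_range.1 hy
    have e2 : a y z * ∑ x ∈ range y, (1 - a x y * a x z) = ∑ x ∈ range y, a y z := by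
      rw [mul_sum]
      refine sum_congr rfl fun x hx => ?_
      have hx' := mem_range.1 hx
      have h : a y z * (a x y * a x z) = 0 := by
        rcases hL y z hy' hz' with h1 | h1
        · simp [h1]
        · rcases hL x y hx' (by omega) with h2 | h2
          · simp [h2]
          · rcases hL x z (by omega) hz' with h3 | h3
            · simp [h3]
            · exfalso
              rcases hP x with g1 | g1 <;> rcases hP y with g2 | g2 <;> rcases hP z with g3 | g3 <;>
                simp_all
      linear_combination -h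
    rw [e2, sum_const, card_range]
    simp [mul_comm]
  have e2 : ∑ l ∈ range c, ∑ y ∈ range m, a y (m + l) * ∑ x ∈ range y, (1 - a x y * a x (m + l))
      = ∑ y ∈ range m, y * (∑ l ∈ range c, a y (m + l))
        - ∑ y ∈ range m, ∑ x ∈ range y, a x y * ∑ l ∈ range c, a x (m + l) * a y (m + l) := by
    rw [sum_comm, ← sum_sub_distrib]
    refine sum_congr rfl fun y _ => ?_
    have h1 : ∑ x ∈ range y, a x y * ∑ l ∈ range c, a x (m + l) * a y (m + l)
        = ∑ l ∈ range c, ∑ x ∈ range y, a x y * (a x (m + l) * a y (m + l)) := by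
      rw [sum_comm]
      exact sum_congr rfl fun x _ => by rw [mul_sum]
    rw [h1, mul_sum, ← sum_sub_distrib]
    refine sum_congr rfl fun l _ => ?_
    rw [sum_sub_distrib, mul_sub, sum_const, card_range, mul_sum]
    have h2 : ∑ x ∈ range y, a y (m + l) * (a x y * a x (m + l))
        = ∑ x ∈ range y, a x y * (a x (m + l) * a y (m + l)) :=
      sum_congr rfl fun x _ => by ring
    rw [h2]
    simp [mul_comm]
  have e3 : ∑ l ∈ range c, ∑ j ∈ range l, a (m + j) (m + l) *
          (∑ x ∈ range m, (1 - a x (m + j) * a x (m + l))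
            + ∑ i ∈ range j, (1 - a (m + i) (m + j) * a (m + i) (m + l)))
      = ∑ l ∈ range c, ∑ j ∈ range l, (m - ∑ x ∈ range m, a x (m + j) * a x (m + l)) := by
    refine sum_congr rfl fun l hl => sum_congr rfl fun j hj => ?_
    have hl' := mem_range.1 hl
    have hj' := mem_range.1 hj
    have h1 : ∑ i ∈ range j, (1 - a (m + i) (m + j) * a (m + i) (m + l)) = 0 := by
      refine sum_eq_zero fun i hi => ?_
      have hi' := mem_range.1 hi
      rw [hC i j hi' (by omega), hC i l (by omega) hl']; norm_num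
    rw [h1, hC j l hj' hl', sum_sub_distrib]
    simp
  have t5 : 2 * ∑ l ∈ range c, ∑ j ∈ range l, ∑ x ∈ range m, a x (m + j) * a x (m + l)
      = ∑ u ∈ range m, ((∑ l ∈ range c, a u (m + l)) ^ 2 - ∑ l ∈ range c, a u (m + l)) := by
    have u1 : ∑ l ∈ range c, ∑ j ∈ range l, ∑ x ∈ range m, a x (m + j) * a x (m + l)
        = ∑ u ∈ range m, ∑ l ∈ range c, ∑ j ∈ range l, a u (m + j) * a u (m + l) := by
      rw [sum_comm]
      refine sum_congr rfl fun l _ => ?_
      rw [sum_comm]
    rw [u1, mul_sum]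
    refine sum_congr rfl fun u _ => ?_
    exact pair_prod c (fun l => a u (m + l))
      (fun i => by rcases ha u (m + i) with h | h <;> simp [h])
  have t6 : 2 * ∑ l ∈ range c, ∑ j ∈ range l, (m : ℤ) = m * c * (c - 1) := by
    have h := pair_add c (fun _ => (1 : ℤ))
    simp only [sum_const, card_range, nsmul_eq_mul, mul_one] at h
    have h2 : ∑ l ∈ range c, ∑ j ∈ range l, (m : ℤ) = ∑ x ∈ range c, (x : ℤ) * m := by
      refine sum_congr rfl fun l _ => ?_
      simp
    rw [h2, ← sum_mul]
    rw [← sum_mul] at h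
    linear_combination (m : ℤ) * h
  have t7 : ∑ l ∈ range c, ∑ j ∈ range l, (m - ∑ x ∈ range m, a x (m + j) * a x (m + l))
      = ∑ l ∈ range c, ∑ j ∈ range l, (m : ℤ)
        - ∑ l ∈ range c, ∑ j ∈ range l, ∑ x ∈ range m, a x (m + j) * a x (m + l) := by
    simp only [← sum_sub_distrib]
  have t8 : ∑ u ∈ range m, (2 * u * (∑ l ∈ range c, a u (m + l))
            - ((∑ l ∈ range c, a u (m + l)) ^ 2 - ∑ l ∈ range c, a u (m + l)))
      = 2 * ∑ u ∈ range m, u * (∑ l ∈ range c, a u (m + l))
        - ∑ u ∈ range m, ((∑ l ∈ range c, a u (m + l)) ^ 2 - ∑ l ∈ range c, a u (m + l)) := by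
    rw [mul_sum, ← sum_sub_distrib]
    exact sum_congr rfl fun u _ => by ring
  have t9 : ∑ y ∈ range m, ∑ x ∈ range y, a x y * (x - ∑ l ∈ range c, a x (m + l) * a y (m + l))
      = ∑ z ∈ range m, ∑ y ∈ range z, a y z * y
        - ∑ y ∈ range m, ∑ x ∈ range y, a x y * ∑ l ∈ range c, a x (m + l) * a y (m + l) := by
    rw [← sum_sub_distrib]
    refine sum_congr rfl fun y _ => ?_
    rw [← sum_sub_distrib]
    exact sum_congr rfl fun x _ => by ring
  rw [e1, e2, e3, t7] at e0
  rw [e0, t8, t9, ← t5]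
  linear_combination t6

/-- Truncation of a 0-1 sequence. -/
theorem truncate (u c : ℕ) (f : ℕ → ℤ) (hf : ∀ l, f l = 0 ∨ f l = 1) :
    ∃ g : ℕ → ℤ, (∀ l, g l = 0 ∨ g l = 1) ∧ (∀ l, g l ≤ f l) ∧
      ∑ l ∈ range c, g l ≤ u ∧
      (∑ l ∈ range c, g l = ∑ l ∈ range c, f l ∨
        (∑ l ∈ range c, g l = u ∧ (u : ℤ) ≤ ∑ l ∈ range c, f l)) := by
  classical
  refine ⟨fun l => if ∑ j ∈ range l, f j < u then f l else 0, ?_, ?_, ?_⟩
  · intro l
    by_cases h : ∑ j ∈ range l, f j < u
    · simp only [if_pos h]; exact hf l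
    · simp [if_neg h]
  · intro l
    by_cases h : ∑ j ∈ range l, f j < u
    · simp [if_pos h]
    · simp only [if_neg h]
      rcases hf l with h | h <;> simp [h]
  · have key : ∀ c, ∑ l ∈ range c, (if ∑ j ∈ range l, f j < u then f l else 0)
        = min (∑ l ∈ range c, f l) u := by
      intro c
      induction c with
      | zero => simp
      | succ c ih =>
        rw [sum_range_succ, ih, sum_range_succ]
        by_cases h : ∑ j ∈ range c, f j < u
        · rw [if_pos h, min_eq_left h.le]
          rcases hf c with g | g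
          · rw [g, add_zero, min_eq_left h.le]
          · rw [g, min_eq_left (Int.add_one_le_iff.2 h)]
        · rw [if_neg h, min_eq_right (not_lt.1 h), add_zero, min_eq_right]
          rcases hf c with g | g <;> rw [g] <;> linarith [not_lt.1 h]
    simp only
    rw [key c]
    refine ⟨min_le_right _ _, ?_⟩
    rcases le_total (∑ l ∈ range c, f l) (u : ℤ) with h | h
    · left; exact min_eq_left h
    · right; exact ⟨min_eq_right h, h⟩

/-- **The inequality if the second part is complete and the first part is bipartite.** -/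
theorem core_bip (m c : ℕ) (κ : ℤ) (a : ℕ → ℕ → ℤ) (P : ℕ → ℤ) (hs : ∀ i j, a i j = a j i)
    (ha : ∀ i j, a i j = 0 ∨ a i j = 1) (hP : ∀ i, P i = 0 ∨ P i = 1)
    (hL : ∀ u v, u < v → v < m → a u v = 0 ∨ P u ≠ P v)
    (hC : ∀ i j, i < j → j < c → a (m + i) (m + j) = 1)
    (hκ : κ ≤ m - c + 2) (A B : ℤ) (hA : pc P m = A) (hB : qc P m = B) :
    2 * cnt (m + c) a ≤ A * (A - κ) * (A - κ + 1) + A * B * (A - 1)
      + B * (m - κ) * (m - κ + 1) + c * κ * (κ - 1) + m * c * (c - 1) := by
  classical
  choose g hg1 hg2 hg3 hg4 using fun u : ℕ => truncate u c (fun l => a u (m + l)) (fun l => ha _ _)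
  set b : ℕ → ℕ → ℤ := fun i j =>
    if i < m then (if j < m then P i * (1 - P j) + (1 - P i) * P j else g i (j - m))
    else (if j < m then g j (i - m) else a i j) with hb
  have hbs : ∀ i j, b i j = b j i := by
    intro i j
    simp only [hb]
    split_ifs
    · ring
    · rfl
    · rfl
    · exact hs _ _
  have hb01 : ∀ i j, b i j = 0 ∨ b i j = 1 := by
    intro i j
    simp only [hb]
    split_ifs
    · rcases hP i with h | h <;> rcases hP j with h' | h' <;> simp [h, h']
    · exact hg1 _ _
    · exact hg1 _ _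
    · exact ha _ _
  have hbL : ∀ u v, u < v → v < m → b u v = P u * (1 - P v) + (1 - P u) * P v := by
    intro u v huv hv
    simp only [hb]
    rw [if_pos (huv.trans hv), if_pos hv]
  have hbL' : ∀ u v, u < v → v < m → b u v = 0 ∨ P u ≠ P v := by
    intro u v huv hv
    rw [hbL u v huv hv]
    rcases hP u with h | h <;> rcases hP v with h' | h' <;> simp [h, h']
  have hbC : ∀ i j, i < j → j < c → b (m + i) (m + j) = 1 := by
    intro i j hij hj
    simp only [hb]
    rw [if_neg (by omega), if_neg (by omega)]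
    exact hC i j hij hj
  have hbg : ∀ u l, u < m → b u (m + l) = g u l := by
    intro u l hu
    simp only [hb]
    rw [if_pos hu, if_neg (by omega), Nat.add_sub_cancel_left]
  have main := core m c κ b P hbs hb01 hP hbL hκ A B hA hB
  refine le_trans ?_ main
  rw [cnt_clique m c a P ha hP hL hC, cnt_clique m c b P hb01 hP hbL' hbC]
  have p1 : ∑ y ∈ range m, ∑ x ∈ range y, a x y * (x - ∑ l ∈ range c, a x (m + l) * a y (m + l))
      ≤ ∑ y ∈ range m, ∑ x ∈ range y, b x y * (x - ∑ l ∈ range c, b x (m + l) * b y (m + l)) := by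
    refine sum_le_sum fun y hy => sum_le_sum fun x hx => ?_
    have hy' := mem_range.1 hy
    have hx' := mem_range.1 hx
    have q1 : ∑ l ∈ range c, b x (m + l) * b y (m + l) ≤ ∑ l ∈ range c, a x (m + l) * a y (m + l) := by
      refine sum_le_sum fun l _ => ?_
      rw [hbg x l (by omega), hbg y l hy']
      have h1 : g x l ≤ a x (m + l) := hg2 x l
      have h2 : g y l ≤ a y (m + l) := hg2 y l
      have h3 : 0 ≤ g x l := by rcases hg1 x l with h | h <;> simp [h]
      have h4 : 0 ≤ g y l := by rcases hg1 y l with h | h <;> simp [h]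
      exact mul_le_mul h1 h2 h4 (h3.trans h1)
    have q2 : ∑ l ∈ range c, b x (m + l) * b y (m + l) ≤ x := by
      refine le_trans (sum_le_sum fun l _ => ?_) (hg3 x)
      rw [hbg x l (by omega), hbg y l hy']
      rcases hg1 x l with h | h <;> rcases hg1 y l with h' | h' <;> simp [h, h']
    have q3 : a x y ≤ b x y := by
      rw [hbL x y hx' hy']
      rcases hL x y hx' hy' with h | h
      · rw [h]
        rcases hP x with h1 | h1 <;> rcases hP y with h2 | h2 <;> simp [h1, h2]
      · have : a x y ≤ 1 := by rcases ha x y with h | h <;> simp [h]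
        refine this.trans ?_
        rcases hP x with h1 | h1 <;> rcases hP y with h2 | h2 <;> simp_all
    have q4 : 0 ≤ a x y := by rcases ha x y with h | h <;> simp [h]
    nlinarith
  have p2 : ∑ u ∈ range m, (2 * u * (∑ l ∈ range c, a u (m + l))
            - ((∑ l ∈ range c, a u (m + l)) ^ 2 - ∑ l ∈ range c, a u (m + l)))
      ≤ ∑ u ∈ range m, (2 * u * (∑ l ∈ range c, b u (m + l))
            - ((∑ l ∈ range c, b u (m + l)) ^ 2 - ∑ l ∈ range c, b u (m + l))) := by
    refine sum_le_sum fun u hu => ?_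
    have hu' := mem_range.1 hu
    have h1 : ∑ l ∈ range c, b u (m + l) = ∑ l ∈ range c, g u l :=
      sum_congr rfl fun l _ => hbg u l hu'
    rw [h1]
    rcases hg4 u with h2 | ⟨h2, h3⟩
    · rw [h2]
    · rw [h2]
      generalize (∑ l ∈ range c, a u (m + l)) = τ at h3 ⊢
      have : 0 ≤ (τ - u) * (τ - u - 1) := by
        rcases h3.eq_or_lt with h | h
        · rw [← h]; simp
        · exact mul_nonneg (by linarith) (by linarith [Int.add_one_le_iff.2 h])
      nlinarith
  linarith

end Pool.Agent.H7.OG
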