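import Pool.Agent.H7.OG.Core

/-!
# Ordered graphs and `K_4^3`-free 3-graphs: the main inequality
-/

namespace Pool.Agent.H7.OG

open Finset

/-- The number of edges of the 3-graph of the ordered graph with adjacency function `a` on the
vertices `0, …, n - 1`. -/
def cnt (n : ℕ) (a : ℕ → ℕ → ℤ) : ℤ :=
  ∑ z ∈ range n, ∑ y ∈ range z, a y z * ∑ x ∈ range y, (1 - a x y * a x z)

theorem cnt_split (m c : ℕ) (a : ℕ → ℕ → ℤ) :
    cnt (m + c) a = ∑ z ∈ range m, ∑ y ∈ range z, a y z * ∑ x ∈ range y, (1 - a x y * a x z)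
      + (∑ l ∈ range c, ∑ y ∈ range m, a y (m + l) * ∑ x ∈ range y, (1 - a x y * a x (m + l))
      + ∑ l ∈ range c, ∑ j ∈ range l, a (m + j) (m + l) *
          (∑ x ∈ range m, (1 - a x (m + j) * a x (m + l))
            + ∑ i ∈ range j, (1 - a (m + i) (m + j) * a (m + i) (m + l)))) := by
  unfold cnt
  rw [sum_range_add, ← sum_add_distrib]
  congr 1
  refine sum_congr rfl fun l _ => ?_
  rw [sum_range_add]
  congr 1
  refine sum_congr rfl fun j _ => ?_
  rw [sum_range_add]

/-- `pc P y` is the number of `v < y` with `P v = 1`. -/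
def pc (P : ℕ → ℤ) (y : ℕ) : ℤ := ∑ v ∈ range y, P v

/-- `qc P y` is the number of `v < y` with `P v = 0`. -/
def qc (P : ℕ → ℤ) (y : ℕ) : ℤ := ∑ v ∈ range y, (1 - P v)

theorem pc_add_qc (P : ℕ → ℤ) (y : ℕ) : pc P y + qc P y = y := by
  unfold pc qc
  rw [← sum_add_distrib]
  simp

theorem pc_succ (P : ℕ → ℤ) (y : ℕ) : pc P (y + 1) = pc P y + P y := sum_range_succ _ _

theorem qc_succ (P : ℕ → ℤ) (y : ℕ) : qc P (y + 1) = qc P y + (1 - P y) := sum_range_succ _ _

theorem first_part (m : ℕ) (a : ℕ → ℕ → ℤ) (P : ℕ → ℤ) (hP : ∀ i, P i = 0 ∨ P i = 1)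
    (hL : ∀ u v, u < v → v < m → a u v = P u * (1 - P v) + (1 - P u) * P v) :
    ∑ z ∈ range m, ∑ y ∈ range z, a y z * ∑ x ∈ range y, (1 - a x y * a x z)
      = ∑ y ∈ range m, (P y * (y * (qc P m - qc P y)) + (1 - P y) * (y * (pc P m - pc P y))) := by
  have e1 : ∑ z ∈ range m, ∑ y ∈ range z, a y z * ∑ x ∈ range y, (1 - a x y * a x z)
      = ∑ z ∈ range m, ∑ y ∈ range z, ((y * P y) * (1 - P z)) +
        ∑ z ∈ range m, ∑ y ∈ range z, ((y * (1 - P y)) * P z) := by
    rw [← sum_add_distrib]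
    refine sum_congr rfl fun z hz => ?_
    rw [← sum_add_distrib]
    refine sum_congr rfl fun y hy => ?_
    have hz' := mem_range.1 hz
    have hy' := mem_range.1 hy
    have e2 : a y z * ∑ x ∈ range y, (1 - a x y * a x z) = ∑ x ∈ range y, a y z := by
      rw [mul_sum]
      refine sum_congr rfl fun x hx => ?_
      have hx' := mem_range.1 hx
      rw [hL y z hy' hz', hL x y hx' (by omega), hL x z (by omega) hz']
      rcases hP x with h1 | h1 <;> rcases hP y with h2 | h2 <;> rcases hP z with h3 | h3 <;>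
        simp [h1, h2, h3]
    rw [e2, sum_const, card_range, hL y z hy' hz']
    simp only [nsmul_eq_mul]
    ring
  rw [e1, swap_pairs, swap_pairs, ← sum_add_distrib]
  refine sum_congr rfl fun y _ => ?_
  have h1 : ∑ v ∈ range m, (1 - P v) = qc P m := rfl
  have h2 : ∑ v ∈ range (y + 1), (1 - P v) = qc P y + (1 - P y) := qc_succ P y
  have h3 : ∑ v ∈ range m, P v = pc P m := rfl
  have h4 : ∑ v ∈ range (y + 1), P v = pc P y + P y := pc_succ P y
  rw [h1, h2, h3, h4]
  have h : P y * (1 - P y) = 0 := by rcases hP y with h | h <;> simp [h]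
  linear_combination (-2 * (y : ℤ)) * h

theorem potential (P : ℕ → ℤ) (hP : ∀ i, P i = 0 ∨ P i = 1) (A B κ : ℤ) (j : ℕ) :
    ∑ u ∈ range j, (P u * ((qc P u + A - κ) * (qc P u + A - κ + 1) + 2 * u * (B - qc P u))
        + (1 - P u) * ((pc P u + B - κ) * (pc P u + B - κ + 1) + 2 * u * (A - pc P u)))
      = pc P j * (A - κ) * (A - κ + 1) + B * pc P j * (pc P j - 1)
        + qc P j * (pc P j + B - κ) * (pc P j + B - κ + 1)
        + (A - pc P j) * (2 * pc P j * qc P j + qc P j * (qc P j - 1)) := by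
  induction j with
  | zero => simp [pc, qc]
  | succ j ih =>
    rw [sum_range_succ, ih, pc_succ, qc_succ]
    have h : (j : ℤ) = pc P j + qc P j := (pc_add_qc P j).symm
    rw [h]
    rcases hP j with h | h <;> rw [h] <;> ring

/-- The target value of the number of neighbours of `y` in the second part. -/
def tgt (P : ℕ → ℤ) (A B κ : ℤ) (y : ℕ) : ℤ :=
  P y * (qc P y + A - κ) + (1 - P y) * (pc P y + B - κ)

theorem per_vertex (m : ℕ) (P E : ℕ → ℤ) (hP : ∀ i, P i = 0 ∨ P i = 1)
    (hE : ∀ i, E i = 0 ∨ E i = 1) (κ : ℤ) :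
    2 * ∑ y ∈ range m, E y * (y - tgt P (pc P m) (qc P m) κ y)
        - 2 * ((∑ y ∈ range m, E y * P y) * ∑ y ∈ range m, E y * (1 - P y))
      ≤ (∑ y ∈ range m, E y) * (2 * κ - 1 - ∑ y ∈ range m, E y) := by
  have r1 := rank_ineq m (fun y => E y * P y) P
    (fun i => by rcases hE i with h | h <;> rcases hP i with g | g <;> simp [h, g]) hP
  have r2 := rank_ineq m (fun y => E y * (1 - P y)) (fun y => 1 - P y)
    (fun i => by rcases hE i with h | h <;> rcases hP i with g | g <;> simp [h, g])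
    (fun i => by rcases hP i with g | g <;> simp [g])
  have e1 : ∑ y ∈ range m, E y = ∑ y ∈ range m, E y * P y + ∑ y ∈ range m, E y * (1 - P y) := by
    rw [← sum_add_distrib]
    exact sum_congr rfl fun y _ => by ring
  have e2 : ∑ y ∈ range m, E y * (y - tgt P (pc P m) (qc P m) κ y)
      = κ * (∑ y ∈ range m, E y * P y + ∑ y ∈ range m, E y * (1 - P y))
        - ∑ y ∈ range m, E y * P y * (∑ v ∈ range m, P v - ∑ v ∈ range y, P v)
        - ∑ y ∈ range m, E y * (1 - P y) *
            (∑ v ∈ range m, (1 - P v) - ∑ v ∈ range y, (1 - P v)) := by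
    rw [← sum_add_distrib, mul_sum, ← sum_sub_distrib, ← sum_sub_distrib]
    refine sum_congr rfl fun y _ => ?_
    have h : (y : ℤ) = pc P y + qc P y := (pc_add_qc P y).symm
    have h1 : ∑ v ∈ range m, (1 - P v) = qc P m := rfl
    have h2 : ∑ v ∈ range y, (1 - P v) = qc P y := rfl
    have h3 : ∑ v ∈ range m, P v = pc P m := rfl
    have h4 : ∑ v ∈ range y, P v = pc P y := rfl
    rw [h1, h2, h3, h4, h, tgt]
    rcases hP y with g | g <;> rw [g] <;> ring
  rw [e1, e2]
  nlinarith [r1, r2]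

/-- The part inside the second class. -/
theorem second_part (m c : ℕ) (a : ℕ → ℕ → ℤ) (hs : ∀ i j, a i j = a j i)
    (ha : ∀ i j, a i j = 0 ∨ a i j = 1) :
    ∃ h : ℕ → ℤ, (∀ t, 0 ≤ h t) ∧
    4 * ∑ l ∈ range c, ∑ j ∈ range l, a (m + j) (m + l) *
          (∑ x ∈ range m, (1 - a x (m + j) * a x (m + l))
            + ∑ i ∈ range j, (1 - a (m + i) (m + j) * a (m + i) (m + l)))
      ≤ 2 * m * c * (c - 1)
        - 2 * ∑ u ∈ range m, ((∑ l ∈ range c, a u (m + l)) ^ 2 - ∑ l ∈ range c, a u (m + l))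
        + ∑ t ∈ range c, (2 * h t * (∑ u ∈ range m, a u (m + t))
            + 2 * (c - 2 - m) * h t - (h t ^ 2 - h t)) := by
  classical
  set B : ℕ → ℕ → ℤ := fun i j => if i = j then 0 else 1 - a (m + i) (m + j) with hB
  have hBs : ∀ i j, B i j = B j i := by
    intro i j
    simp only [hB]
    by_cases hij : i = j
    · simp [hij]
    · rw [if_neg hij, if_neg (Ne.symm hij), hs]
  have hB0 : ∀ i, B i i = 0 := fun i => by simp [hB]
  have hB1 : ∀ i j, B i j * B i j = B i j := by
    intro i j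
    simp only [hB]
    by_cases hij : i = j
    · simp [hij]
    · rw [if_neg hij]
      rcases ha (m + i) (m + j) with h | h <;> simp [h]
  have hBn : ∀ i j, 0 ≤ B i j := by
    intro i j
    simp only [hB]
    by_cases hij : i = j
    · simp [hij]
    · rw [if_neg hij]
      rcases ha (m + i) (m + j) with h | h <;> simp [h]
  have hBa : ∀ i j, i < j → a (m + i) (m + j) = 1 - B i j := by
    intro i j hij
    simp only [hB]
    rw [if_neg hij.ne]; ring
  have hB01 : ∀ i j, B i j = 0 ∨ B i j = 1 := by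
    intro i j
    simp only [hB]
    by_cases hij : i = j
    · simp [hij]
    · rw [if_neg hij]
      rcases ha (m + i) (m + j) with h | h <;> simp [h]
  refine ⟨fun t => ∑ j ∈ range c, B t j, fun t => sum_nonneg fun j _ => hBn t j, ?_⟩
  set s : ℕ → ℕ → ℤ := fun j l => ∑ x ∈ range m, a x (m + j) * a x (m + l) with hsdef
  set e : ℕ → ℤ := fun t => ∑ u ∈ range m, a u (m + t) with hedef
  -- pointwise bound
  have hpt : ∀ l ∈ range c, ∀ j ∈ range l, 4 * (a (m + j) (m + l) *
          (∑ x ∈ range m, (1 - a x (m + j) * a x (m + l))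
            + ∑ i ∈ range j, (1 - a (m + i) (m + j) * a (m + i) (m + l))))
      ≤ 4 * m - 4 * s j l - 4 * m * B j l + 2 * (B j l * (e j + e l))
        + 4 * ∑ i ∈ range j, (B i j + B i l + B j l)
        - 2 * ∑ i ∈ range j, (B i j * B i l + B i j * B j l + B i l * B j l) := by
    intro l _ j hj
    have hj' := mem_range.1 hj
    have e1 : ∑ x ∈ range m, (1 - a x (m + j) * a x (m + l)) = m - s j l := by
      rw [sum_sub_distrib]; simp [hsdef]
    have e2 : s j l * 2 ≤ e j + e l := by
      simp only [hsdef, hedef]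
      rw [← sum_add_distrib, sum_mul]
      refine sum_le_sum fun x _ => ?_
      rcases ha x (m + j) with h | h <;> rcases ha x (m + l) with g | g <;> rw [h, g] <;> norm_num
    have e3 : 4 * (a (m + j) (m + l) *
        ∑ i ∈ range j, (1 - a (m + i) (m + j) * a (m + i) (m + l)))
        ≤ 4 * ∑ i ∈ range j, (B i j + B i l + B j l)
        - 2 * ∑ i ∈ range j, (B i j * B i l + B i j * B j l + B i l * B j l) := by
      rw [mul_sum, mul_sum, mul_sum, mul_sum, ← sum_sub_distrib]
      refine sum_le_sum fun i hi => ?_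
      have hi' := mem_range.1 hi
      rw [hBa j l hj', hBa i j hi', hBa i l (by omega)]
      rcases hB01 i j with h1 | h1 <;> rcases hB01 i l with h2 | h2 <;>
        rcases hB01 j l with h3 | h3 <;> rw [h1, h2, h3] <;> norm_num
    have e4 : 4 * (a (m + j) (m + l) * ((m : ℤ) - s j l))
        ≤ 4 * m - 4 * s j l - 4 * m * B j l + 2 * (B j l * (e j + e l)) := by
      rw [hBa j l hj']
      rcases hB01 j l with h3 | h3 <;> rw [h3] <;> nlinarith
    rw [e1]
    nlinarith [e3, e4]
  have hsum := sum_le_sum fun l hl => sum_le_sum fun j hj => hpt l hl j hj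
  -- evaluate the sums
  have t1 := triple_one c B
  have t2 := triple_two c B hBs hB0 hB1
  have t3 : 2 * ∑ l ∈ range c, ∑ j ∈ range l, B j l = ∑ t ∈ range c, ∑ j ∈ range c, B t j := by
    rw [pair_sym c B hBs hB0]
    refine sum_congr rfl fun l _ => sum_congr rfl fun j _ => hBs j l
  have t4 : ∑ l ∈ range c, ∑ j ∈ range l, B j l * (e j + e l)
      = ∑ t ∈ range c, (∑ j ∈ range c, B t j) * e t := by
    have u1 := pair_sym c (fun j l => B j l * (e j + e l))
      (fun i j => by rw [hBs i j, add_comm]) (fun i => by simp [hB0])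
    have u2 : ∑ l ∈ range c, ∑ j ∈ range c, B j l * (e j + e l)
        = 2 * ∑ t ∈ range c, (∑ j ∈ range c, B t j) * e t := by
      have a1 : ∑ l ∈ range c, ∑ j ∈ range c, B j l * (e j + e l)
          = ∑ l ∈ range c, ∑ j ∈ range c, B j l * e j
            + ∑ l ∈ range c, ∑ j ∈ range c, B j l * e l := by
        rw [← sum_add_distrib]
        refine sum_congr rfl fun j _ => ?_
        rw [← sum_add_distrib]
        exact sum_congr rfl fun i _ => by ring
      have a2 : ∑ l ∈ range c, ∑ j ∈ range c, B j l * e j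
          = ∑ t ∈ range c, (∑ j ∈ range c, B t j) * e t := by
        rw [sum_comm]
        exact sum_congr rfl fun j _ => by rw [sum_mul]
      have a3 : ∑ l ∈ range c, ∑ j ∈ range c, B j l * e l
          = ∑ t ∈ range c, (∑ j ∈ range c, B t j) * e t := by
        refine sum_congr rfl fun j _ => ?_
        rw [sum_mul]
        exact sum_congr rfl fun i _ => by rw [hBs i j]
      rw [a1, a2, a3]; ring
    linarith
  have t5 : 2 * ∑ l ∈ range c, ∑ j ∈ range l, s j l
      = ∑ u ∈ range m, ((∑ l ∈ range c, a u (m + l)) ^ 2 - ∑ l ∈ range c, a u (m + l)) := by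
    have u1 : ∑ l ∈ range c, ∑ j ∈ range l, s j l
        = ∑ u ∈ range m, ∑ l ∈ range c, ∑ j ∈ range l, a u (m + j) * a u (m + l) := by
      simp only [hsdef]
      rw [sum_comm]
      refine sum_congr rfl fun l _ => ?_
      rw [sum_comm]
    rw [u1, mul_sum]
    refine sum_congr rfl fun u _ => ?_
    exact pair_prod c (fun l => a u (m + l))
      (fun i => by rcases ha u (m + i) with h | h <;> simp [h])
  have t6 : ∑ l ∈ range c, ∑ j ∈ range l, (2 : ℤ) = c * (c - 1) := by
    have h := pair_add c (fun _ => (1 : ℤ))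
    simp only [sum_const, card_range, nsmul_eq_mul, mul_one] at h
    have h2 : ∑ l ∈ range c, ∑ j ∈ range l, (2 : ℤ) = ∑ x ∈ range c, (x : ℤ) * (1 + 1) := by
      refine sum_congr rfl fun l _ => ?_
      simp
    rw [h2, h]; ring
  have t7 : ∑ l ∈ range c, ∑ j ∈ range l, (4 * (m : ℤ) - 4 * s j l - 4 * m * B j l
        + 2 * (B j l * (e j + e l)) + 4 * ∑ i ∈ range j, (B i j + B i l + B j l)
        - 2 * ∑ i ∈ range j, (B i j * B i l + B i j * B j l + B i l * B j l))
      = 2 * m * ∑ l ∈ range c, ∑ j ∈ range l, (2 : ℤ)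
        - 4 * ∑ l ∈ range c, ∑ j ∈ range l, s j l
        - 4 * m * ∑ l ∈ range c, ∑ j ∈ range l, B j l
        + 2 * ∑ l ∈ range c, ∑ j ∈ range l, B j l * (e j + e l)
        + 4 * ∑ l ∈ range c, ∑ j ∈ range l, ∑ i ∈ range j, (B i j + B i l + B j l)
        - 2 * ∑ l ∈ range c, ∑ j ∈ range l, ∑ i ∈ range j,
            (B i j * B i l + B i j * B j l + B i l * B j l) := by
    simp only [mul_sum, ← sum_add_distrib, ← sum_sub_distrib]
    refine sum_congr rfl fun l _ => sum_congr rfl fun j _ => ?_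
    ring
  have t8 : ∑ t ∈ range c, (2 * (∑ j ∈ range c, B t j) * e t
            + 2 * (c - 2 - m) * (∑ j ∈ range c, B t j)
            - ((∑ j ∈ range c, B t j) ^ 2 - (∑ j ∈ range c, B t j)))
      = 2 * ∑ t ∈ range c, (∑ j ∈ range c, B t j) * e t
        + 2 * (c - 2 - m) * ∑ t ∈ range c, (∑ j ∈ range c, B t j)
        - ∑ t ∈ range c, ((∑ j ∈ range c, B t j) ^ 2 - (∑ j ∈ range c, B t j)) := by
    rw [mul_sum, mul_sum, ← sum_add_distrib, ← sum_sub_distrib]
    refine sum_congr rfl fun t _ => ?_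
    ring
  have t9 : 4 * ∑ l ∈ range c, ∑ j ∈ range l, a (m + j) (m + l) *
          (∑ x ∈ range m, (1 - a x (m + j) * a x (m + l))
            + ∑ i ∈ range j, (1 - a (m + i) (m + j) * a (m + i) (m + l)))
      = ∑ l ∈ range c, ∑ j ∈ range l, 4 * (a (m + j) (m + l) *
          (∑ x ∈ range m, (1 - a x (m + j) * a x (m + l))
            + ∑ i ∈ range j, (1 - a (m + i) (m + j) * a (m + i) (m + l)))) := by
    rw [mul_sum]
    exact sum_congr rfl fun l _ => by rw [mul_sum]
  simp only
  rw [t9, t8]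
  refine hsum.trans ?_
  rw [t7, t6, t4, ← t5, ← t3, ← t2, t1]
  apply le_of_eq
  ring

/-- **The main inequality** in terms of adjacency functions. -/
theorem core (m c : ℕ) (κ : ℤ) (a : ℕ → ℕ → ℤ) (P : ℕ → ℤ) (hs : ∀ i j, a i j = a j i)
    (ha : ∀ i j, a i j = 0 ∨ a i j = 1) (hP : ∀ i, P i = 0 ∨ P i = 1)
    (hL : ∀ u v, u < v → v < m → a u v = P u * (1 - P v) + (1 - P u) * P v)
    (hκ : κ ≤ m - c + 2) (A B : ℤ) (hA : pc P m = A) (hB : qc P m = B) :
    2 * cnt (m + c) a ≤ A * (A - κ) * (A - κ + 1) + A * B * (A - 1)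
      + B * (m - κ) * (m - κ + 1) + c * κ * (κ - 1) + m * c * (c - 1) := by
  obtain ⟨h, hh, h2⟩ := second_part m c a hs ha
  have hAB : A + B = m := by rw [← hA, ← hB]; exact pc_add_qc P m
  have e0 := cnt_split m c a
  have e1 := first_part m a P hP hL
  have e2 := potential P hP A B κ m
  rw [hA, hB] at e1 e2
  -- the terms of the second part and the first one
  have e3 : ∀ l ∈ range c, ∑ y ∈ range m, a y (m + l) *
        ∑ x ∈ range y, (1 - a x y * a x (m + l))
      = ∑ y ∈ range m, a y (m + l) * y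
        - (∑ y ∈ range m, a y (m + l) * P y) * ∑ y ∈ range m, a y (m + l) * (1 - P y) := by
    intro l _
    rw [← bip_edges m P (fun y => a y (m + l)) hP, ← sum_sub_distrib]
    refine sum_congr rfl fun y hy => ?_
    have hy' := mem_range.1 hy
    rw [sum_sub_distrib, mul_sub, sum_const, card_range, mul_sum]
    have : ∑ x ∈ range y, a y (m + l) * (a x y * a x (m + l))
        = ∑ x ∈ range y, (P x * (1 - P y) + (1 - P x) * P y) * (a x (m + l) * a y (m + l)) := by
      refine sum_congr rfl fun x hx => ?_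
      rw [hL x y (mem_range.1 hx) hy']; ring
    rw [this]
    simp
  have e4 : ∑ l ∈ range c, ∑ y ∈ range m, a y (m + l) *
        ∑ x ∈ range y, (1 - a x y * a x (m + l))
      = ∑ l ∈ range c, (∑ y ∈ range m, a y (m + l) * y
        - (∑ y ∈ range m, a y (m + l) * P y) * ∑ y ∈ range m, a y (m + l) * (1 - P y)) :=
    sum_congr rfl e3
  have e5 : ∀ l ∈ range c, 2 * (∑ y ∈ range m, a y (m + l) * y
        - (∑ y ∈ range m, a y (m + l) * P y) * ∑ y ∈ range m, a y (m + l) * (1 - P y))
      ≤ 2 * ∑ y ∈ range m, a y (m + l) * tgt P A B κ y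
        + (∑ y ∈ range m, a y (m + l)) * (2 * κ - 1 - ∑ y ∈ range m, a y (m + l)) := by
    intro l _
    have h1 := per_vertex m P (fun y => a y (m + l)) hP (fun i => ha _ _) κ
    rw [hA, hB] at h1
    have h3 : ∑ y ∈ range m, a y (m + l) * (y - tgt P A B κ y)
        = ∑ y ∈ range m, a y (m + l) * y - ∑ y ∈ range m, a y (m + l) * tgt P A B κ y := by
      rw [← sum_sub_distrib]
      exact sum_congr rfl fun y _ => by ring
    rw [h3] at h1
    linarith
  have e6 := sum_le_sum e5
  rw [← mul_sum, sum_add_distrib, ← mul_sum] at e6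
  have e7 : ∑ l ∈ range c, ∑ y ∈ range m, a y (m + l) * tgt P A B κ y
      = ∑ u ∈ range m, (∑ l ∈ range c, a u (m + l)) * tgt P A B κ u := by
    rw [sum_comm]
    exact sum_congr rfl fun y _ => by rw [sum_mul]
  rw [e7] at e6
  -- pointwise inequality for the vertices of the first part
  have e8 : ∑ u ∈ range m, (2 * ((∑ l ∈ range c, a u (m + l)) * tgt P A B κ u)
        - ((∑ l ∈ range c, a u (m + l)) ^ 2 - ∑ l ∈ range c, a u (m + l)))
      ≤ ∑ u ∈ range m, tgt P A B κ u * (tgt P A B κ u + 1) := by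
    refine sum_le_sum fun u _ => ?_
    generalize (∑ l ∈ range c, a u (m + l)) = τ
    generalize tgt P A B κ u = σ
    have : 0 ≤ (τ - σ) * (τ - σ - 1) := by
      rcases le_or_gt (τ - σ) 0 with h | h
      · exact mul_nonneg_of_nonpos_of_nonpos h (by linarith)
      · exact mul_nonneg h.le (by linarith [Int.add_one_le_iff.2 h])
    nlinarith
  rw [sum_sub_distrib, ← mul_sum] at e8
  -- pointwise inequality for the vertices of the second part
  have e9 : ∑ t ∈ range c, (2 * h t * (∑ u ∈ range m, a u (m + t))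
            + 2 * (c - 2 - m) * h t - (h t ^ 2 - h t))
        + 2 * ∑ t ∈ range c, (∑ y ∈ range m, a y (m + t)) *
            (2 * κ - 1 - ∑ y ∈ range m, a y (m + t))
      ≤ ∑ t ∈ range c, 2 * κ * (κ - 1) := by
    rw [mul_sum, ← sum_add_distrib]
    refine sum_le_sum fun t _ => ?_
    have ht := hh t
    generalize h t = g at ht ⊢
    generalize (∑ u ∈ range m, a u (m + t)) = e
    have h1 : 0 ≤ 2 * (m - c + 2 - κ) * g := mul_nonneg (by linarith) ht
    have h3 : 0 ≤ 2 * (e - κ) ^ 2 - 2 * (e - κ) * (g - 1) + g * (g - 1) := by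
      rcases ht.eq_or_lt with h0 | h0
      · rw [← h0]
        have : 0 ≤ (e - κ) * (e - κ + 1) := by
          rcases le_or_gt 0 (e - κ) with h | h
          · exact mul_nonneg h (by linarith)
          · exact mul_nonneg_of_nonpos_of_nonpos h.le (by linarith [Int.add_one_le_iff.2 h])
        nlinarith
      · nlinarith [sq_nonneg (e - κ), sq_nonneg (e - κ - (g - 1)), Int.add_one_le_iff.2 h0]
    nlinarith
  have e10 : ∑ t ∈ range c, 2 * κ * (κ - 1) = 2 * c * κ * (κ - 1) := by
    rw [sum_const, card_range]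
    simp only [nsmul_eq_mul]
    ring
  -- the path
  have e11 : 2 * ∑ y ∈ range m, (P y * (y * (B - qc P y)) + (1 - P y) * (y * (A - pc P y)))
        + ∑ u ∈ range m, tgt P A B κ u * (tgt P A B κ u + 1)
      = A * (A - κ) * (A - κ + 1) + A * B * (A - 1) + B * (m - κ) * (m - κ + 1) := by
    have : A * (A - κ) * (A - κ + 1) + A * B * (A - 1) + B * (m - κ) * (m - κ + 1)
        = A * (A - κ) * (A - κ + 1) + B * A * (A - 1)
        + B * (A + B - κ) * (A + B - κ + 1)
        + (A - A) * (2 * A * B + B * (B - 1)) := by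
      rw [← hAB]; ring
    rw [this, ← e2, mul_sum, ← sum_add_distrib]
    refine sum_congr rfl fun y _ => ?_
    unfold tgt
    rcases hP y with g | g <;> rw [g] <;> ring
  rw [e4, e1] at e0
  rw [e10] at e9
  rw [e0]
  nlinarith [e6, e8, e9, h2, e11]

end Pool.Agent.H7.OG
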