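import Pool.Agent.H7.OG.Sums
import Pool.Agent.H7.OG.Main

/-!
# The symmetric indicator function of the triples, blow-ups, and folding the vertex order
-/

namespace Pool.Agent.H7.OG

open Finset

/-- The symmetric indicator function of the triples of the 3-graph. -/
def eta (a : ℕ → ℕ → ℤ) (u v w : ℕ) : ℤ :=
  if u < v ∧ u < w then a v w * (1 - a u v * a u w)
  else if v < u ∧ v < w then a u w * (1 - a u v * a v w)
  else if w < u ∧ w < v then a u v * (1 - a u w * a v w)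
  else 0

theorem eta_comm1 (a : ℕ → ℕ → ℤ) (hs : ∀ i j, a i j = a j i) (u v w : ℕ) :
    eta a u v w = eta a v u w := by
  unfold eta
  rw [hs v u]
  by_cases h1 : u < v ∧ u < w
  · have h2 : ¬ (v < u ∧ v < w) := by omega
    simp only [h1, h2, if_true, if_false, and_self]
  · by_cases h2 : v < u ∧ v < w
    · simp only [h1, h2, if_true, if_false, and_self]
    · by_cases h3 : w < u ∧ w < v
      · have h3' : w < v ∧ w < u := ⟨h3.2, h3.1⟩
        simp only [h1, h2, h3, h3', if_true, if_false, and_self]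
        ring
      · have h3' : ¬ (w < v ∧ w < u) := by omega
        simp only [h1, h2, h3, h3', if_false]

theorem eta_comm2 (a : ℕ → ℕ → ℤ) (hs : ∀ i j, a i j = a j i) (u v w : ℕ) :
    eta a u v w = eta a u w v := by
  unfold eta
  rw [hs w v]
  by_cases h1 : u < v ∧ u < w
  · have h1' : u < w ∧ u < v := ⟨h1.2, h1.1⟩
    simp only [h1, h1', if_true, and_self]
    ring
  · have h1' : ¬ (u < w ∧ u < v) := by omega
    by_cases h2 : v < u ∧ v < w
    · have h3 : ¬ (w < u ∧ w < v) := by omega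
      simp only [h1, h1', h2, h3, if_true, if_false, and_self]
    · by_cases h3 : w < u ∧ w < v
      · simp only [h1, h1', h2, h3, if_true, if_false, and_self]
      · simp only [h1, h1', h2, h3, if_false]

theorem eta_nonneg (a : ℕ → ℕ → ℤ) (ha : ∀ i j, a i j = 0 ∨ a i j = 1) (u v w : ℕ) :
    0 ≤ eta a u v w := by
  unfold eta
  rcases ha u v with h1 | h1 <;> rcases ha u w with h2 | h2 <;> rcases ha v w with h3 | h3 <;>
    rw [h1, h2, h3] <;> split_ifs <;> norm_num

theorem eta_le_one (a : ℕ → ℕ → ℤ) (ha : ∀ i j, a i j = 0 ∨ a i j = 1) (u v w : ℕ) :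
    eta a u v w ≤ 1 := by
  unfold eta
  rcases ha u v with h1 | h1 <;> rcases ha u w with h2 | h2 <;> rcases ha v w with h3 | h3 <;>
    rw [h1, h2, h3] <;> split_ifs <;> norm_num

theorem eta_self (a : ℕ → ℕ → ℤ) (h0 : ∀ i, a i i = 0) (u w : ℕ) : eta a u u w = 0 := by
  unfold eta
  rw [h0 u]
  by_cases h3 : w < u
  · rw [if_neg (by omega), if_neg (by omega), if_pos ⟨h3, h3⟩]; ring
  · rw [if_neg (by omega), if_neg (by omega), if_neg (by omega)]

/-- Six times the number of edges. -/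
theorem six_cnt (n : ℕ) (a : ℕ → ℕ → ℤ) (hs : ∀ i j, a i j = a j i) (h0 : ∀ i, a i i = 0) :
    6 * cnt n a = ∑ u ∈ range n, ∑ v ∈ range n, ∑ w ∈ range n, eta a u v w := by
  rw [triples_all n (eta a) (eta_comm1 a hs) (eta_comm2 a hs)]
  have h1 : ∑ u ∈ range n, ∑ v ∈ range n, eta a u u v = 0 :=
    sum_eq_zero fun u _ => sum_eq_zero fun v _ => eta_self a h0 u v
  have h2 : ∑ u ∈ range n, eta a u u u = 0 := sum_eq_zero fun u _ => eta_self a h0 u u
  have h3 : cnt n a = S3 n (eta a) := by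
    unfold cnt S3 S2
    refine sum_congr rfl fun z _ => sum_congr rfl fun y hy => ?_
    rw [mul_sum]
    refine sum_congr rfl fun x hx => ?_
    have hy' := mem_range.1 hy
    have hx' := mem_range.1 hx
    show _ = eta a x y z
    unfold eta
    rw [if_pos ⟨hx', by omega⟩]
  rw [h1, h2, h3]; ring

theorem sum_div (n N : ℕ) (φ : ℕ → ℤ) :
    ∑ i ∈ range (n * N), φ (i / N) = N * ∑ i ∈ range n, φ i := by
  rcases Nat.eq_zero_or_pos N with h | hN
  · subst h; simp
  induction n with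
  | zero => simp
  | succ n ih =>
    rw [Nat.succ_mul, sum_range_add, ih, sum_range_succ, mul_add]
    congr 1
    have : ∀ x ∈ range N, φ ((n * N + x) / N) = φ n := by
      intro x hx
      congr 1
      rw [Nat.mul_comm, Nat.mul_add_div hN, Nat.div_eq_of_lt (mem_range.1 hx), add_zero]
    rw [sum_congr rfl this]
    simp

/-- Blow-ups do not decrease the density. -/
theorem blowup (n N : ℕ) (a : ℕ → ℕ → ℤ) (hs : ∀ i j, a i j = a j i) (h0 : ∀ i, a i i = 0)
    (ha : ∀ i j, a i j = 0 ∨ a i j = 1) :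
    (N : ℤ) ^ 3 * (6 * cnt n a) ≤ 6 * cnt (n * N) (fun i j => a (i / N) (j / N)) := by
  rw [six_cnt n a hs h0, six_cnt (n * N) _ (fun i j => hs _ _) (fun i => h0 _)]
  have e1 : (N : ℤ) ^ 3 * ∑ u ∈ range n, ∑ v ∈ range n, ∑ w ∈ range n, eta a u v w
      = ∑ u ∈ range (n * N), ∑ v ∈ range (n * N), ∑ w ∈ range (n * N),
          eta a (u / N) (v / N) (w / N) := by
    have f1 : ∀ u v, ∑ w ∈ range (n * N), eta a u v (w / N) = N * ∑ w ∈ range n, eta a u v w :=
      fun u v => sum_div n N (fun w => eta a u v w)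
    have f2 : ∀ u, ∑ v ∈ range (n * N), ∑ w ∈ range (n * N), eta a u (v / N) (w / N)
        = N * (N * ∑ v ∈ range n, ∑ w ∈ range n, eta a u v w) := by
      intro u
      simp only [f1]
      rw [sum_div n N (fun v => (N : ℤ) * ∑ w ∈ range n, eta a u v w), ← mul_sum]
    simp only [f2]
    rw [sum_div n N (fun u => (N : ℤ) * (N * ∑ v ∈ range n, ∑ w ∈ range n, eta a u v w)),
      ← mul_sum, ← mul_sum]
    ring
  rw [e1]
  refine sum_le_sum fun u _ => sum_le_sum fun v _ => sum_le_sum fun w _ => ?_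
  have key : ∀ x y : ℕ, x / N < y / N → x < y := fun x y h => by
    by_contra h'
    exact absurd (Nat.div_le_div_right (c := N) (not_lt.1 h')) (not_le.2 h)
  have hnn := eta_nonneg (fun i j => a (i / N) (j / N)) (fun i j => ha _ _) u v w
  by_cases h1 : u / N < v / N ∧ u / N < w / N
  · have g1 : u < v ∧ u < w := ⟨key _ _ h1.1, key _ _ h1.2⟩
    unfold eta
    rw [if_pos h1, if_pos g1]
  · by_cases h2 : v / N < u / N ∧ v / N < w / N
    · have g2 : v < u ∧ v < w := ⟨key _ _ h2.1, key _ _ h2.2⟩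
      unfold eta
      rw [if_neg h1, if_pos h2, if_neg (by omega), if_pos g2]
    · by_cases h3 : w / N < u / N ∧ w / N < v / N
      · have g3 : w < u ∧ w < v := ⟨key _ _ h3.1, key _ _ h3.2⟩
        unfold eta
        rw [if_neg h1, if_neg h2, if_pos h3, if_neg (by omega), if_neg (by omega), if_pos g3]
      · have : eta a (u / N) (v / N) (w / N) = 0 := by
          unfold eta
          rw [if_neg h1, if_neg h2, if_neg h3]
        rw [this]
        exact hnn

/-- The position of the vertex of type `s` and rank `r`: the types `0`, `1`, `2` are the three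
thirds of the order, and the ranks in the second third are in the reversed order. -/
def pos (k s r : ℕ) : ℕ := if s = 0 then r else if s = 1 then 2 * k - 1 - r else 2 * k + r

theorem sum_fold (k : ℕ) (φ : ℕ → ℤ) :
    ∑ u ∈ range (3 * k), φ u = ∑ r ∈ range k, ∑ s ∈ range 3, φ (pos k s r) := by
  have e1 : 3 * k = k + k + k := by ring
  rw [e1, sum_range_add, sum_range_add]
  have e2 : ∑ x ∈ range k, φ (k + x) = ∑ x ∈ range k, φ (k + (k - 1 - x)) :=
    (sum_range_reflect (fun x => φ (k + x)) k).symm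
  rw [e2, ← sum_add_distrib, ← sum_add_distrib]
  refine sum_congr rfl fun r hr => ?_
  have hr' := mem_range.1 hr
  have h0 : pos k 0 r = r := rfl
  have h1 : pos k 1 r = k + (k - 1 - r) := by
    unfold pos; simp only [one_ne_zero, if_false, if_true]; omega
  have h2 : pos k 2 r = k + k + r := by unfold pos; simp; ring
  rw [sum_range_succ, sum_range_succ, sum_range_one, h0, h1, h2]

/-- Sum over the types of three vertices of given ranks. -/
def zeta (k : ℕ) (a : ℕ → ℕ → ℤ) (r0 r1 r2 : ℕ) : ℤ :=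
  ∑ s0 ∈ range 3, ∑ s1 ∈ range 3, ∑ s2 ∈ range 3,
    eta a (pos k s0 r0) (pos k s1 r1) (pos k s2 r2)

theorem zeta_comm1 (k : ℕ) (a : ℕ → ℕ → ℤ) (hs : ∀ i j, a i j = a j i) (r0 r1 r2 : ℕ) :
    zeta k a r0 r1 r2 = zeta k a r1 r0 r2 := by
  unfold zeta
  rw [sum_comm]
  exact sum_congr rfl fun _ _ => sum_congr rfl fun _ _ => sum_congr rfl fun _ _ =>
    eta_comm1 a hs _ _ _

theorem zeta_comm2 (k : ℕ) (a : ℕ → ℕ → ℤ) (hs : ∀ i j, a i j = a j i) (r0 r1 r2 : ℕ) :
    zeta k a r0 r1 r2 = zeta k a r0 r2 r1 := by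
  unfold zeta
  refine sum_congr rfl fun _ _ => ?_
  rw [sum_comm]
  exact sum_congr rfl fun _ _ => sum_congr rfl fun _ _ => eta_comm2 a hs _ _ _

theorem zeta_nonneg (k : ℕ) (a : ℕ → ℕ → ℤ) (ha : ∀ i j, a i j = 0 ∨ a i j = 1) (r0 r1 r2 : ℕ) :
    0 ≤ zeta k a r0 r1 r2 :=
  sum_nonneg fun _ _ => sum_nonneg fun _ _ => sum_nonneg fun _ _ => eta_nonneg a ha _ _ _

theorem zeta_le (k : ℕ) (a : ℕ → ℕ → ℤ) (ha : ∀ i j, a i j = 0 ∨ a i j = 1) (r0 r1 r2 : ℕ) :
    zeta k a r0 r1 r2 ≤ 27 := by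
  have : zeta k a r0 r1 r2 ≤ ∑ _s0 ∈ range 3, ∑ _s1 ∈ range 3, ∑ _s2 ∈ range 3, (1 : ℤ) :=
    sum_le_sum fun _ _ => sum_le_sum fun _ _ => sum_le_sum fun _ _ => eta_le_one a ha _ _ _
  simpa using this

/-- The number of edges in terms of sorted ranks. -/
theorem cnt_fold (k : ℕ) (a : ℕ → ℕ → ℤ) (hs : ∀ i j, a i j = a j i) (h0 : ∀ i, a i i = 0)
    (ha : ∀ i j, a i j = 0 ∨ a i j = 1) :
    6 * cnt (3 * k) a ≤ 6 * S3 k (zeta k a) + 81 * (k : ℤ) ^ 2 := by
  rw [six_cnt (3 * k) a hs h0]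
  have e1 : ∑ u ∈ range (3 * k), ∑ v ∈ range (3 * k), ∑ w ∈ range (3 * k), eta a u v w
      = ∑ r0 ∈ range k, ∑ r1 ∈ range k, ∑ r2 ∈ range k, zeta k a r0 r1 r2 := by
    rw [sum_fold]
    refine sum_congr rfl fun r0 _ => ?_
    have f1 : ∀ s0, ∑ v ∈ range (3 * k), ∑ w ∈ range (3 * k), eta a (pos k s0 r0) v w
        = ∑ r1 ∈ range k, ∑ r2 ∈ range k, ∑ s1 ∈ range 3, ∑ s2 ∈ range 3,
            eta a (pos k s0 r0) (pos k s1 r1) (pos k s2 r2) := by
      intro s0
      rw [sum_fold]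
      refine sum_congr rfl fun r1 _ => ?_
      rw [sum_comm]
      have : ∑ s1 ∈ range 3, ∑ w ∈ range (3 * k), eta a (pos k s0 r0) (pos k s1 r1) w
          = ∑ s1 ∈ range 3, ∑ r2 ∈ range k, ∑ s2 ∈ range 3,
              eta a (pos k s0 r0) (pos k s1 r1) (pos k s2 r2) :=
        sum_congr rfl fun s1 _ => sum_fold k _
      rw [sum_comm, this, sum_comm]
    rw [sum_congr rfl fun s0 _ => f1 s0, sum_comm]
    refine sum_congr rfl fun r1 _ => ?_
    rw [sum_comm]
    rfl
  rw [e1, triples_all k (zeta k a) (zeta_comm1 k a hs) (zeta_comm2 k a hs)]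
  have h1 : ∑ r0 ∈ range k, ∑ r1 ∈ range k, zeta k a r0 r0 r1
      ≤ ∑ _r0 ∈ range k, ∑ _r1 ∈ range k, (27 : ℤ) :=
    sum_le_sum fun _ _ => sum_le_sum fun _ _ => zeta_le k a ha _ _ _
  have h2 : 0 ≤ ∑ r0 ∈ range k, zeta k a r0 r0 r0 := sum_nonneg fun _ _ => zeta_nonneg k a ha _ _ _
  have h3 : ∑ _r0 ∈ range k, ∑ _r1 ∈ range k, (27 : ℤ) = 27 * (k : ℤ) ^ 2 := by
    simp; ring
  rw [h3] at h1
  linarith

end Pool.Agent.H7.OG
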