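import Pool.Agent.H7.OG.Chk
import Pool.Agent.H7.OG.Eta

/-!
# The bound for all ordered graphs
-/

namespace Pool.Agent.H7.OG

open Finset

/-- The digits. -/
def dig (u m : ℕ) : ℤ := ((u / 524288 ^ m % 524288 : ℕ) : ℤ) - 262144

theorem dig_abs (u m : ℕ) : -262144 ≤ dig u m ∧ dig u m ≤ 262144 := by
  unfold dig
  have : u / 524288 ^ m % 524288 < 524288 := Nat.mod_lt _ (by norm_num)
  constructor <;> omega

theorem dotN_eq (n u v : ℕ) : dotN n u v = ∑ m ∈ range n, dig u m * dig v m := by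
  induction n generalizing u v with
  | zero => simp [dotN]
  | succ n ih =>
    have hd : ∀ u m : ℕ, dig (u / 524288) m = dig u (m + 1) := by
      intro u m
      unfold dig
      rw [Nat.div_div_eq_div_mul, ← pow_succ']
    have h0 : ∀ u : ℕ, dig u 0 = ((u % 524288 : ℕ) : ℤ) - 262144 := by
      intro u; unfold dig; simp
    rw [dotN, ih, sum_range_succ', h0, h0, add_comm]
    simp only [hd]

/-- The entries of the columns. -/
def cc (t i m : ℕ) : ℤ := dig ((colTab.getD t []).getD i 0) m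

theorem QQ_eq (t i j : ℕ) : QQ t i j = ∑ m ∈ range 33, cc t i m * cc t j m := dotN_eq _ _ _

theorem FF_sum (w g x : ℕ) : ∑ s ∈ range 3, FF w g x s = 0 := by
  rw [sum_range_succ, sum_range_succ, sum_range_one]
  unfold FF
  simp only [if_true, one_ne_zero, if_false, OfNat.ofNat_ne_zero, OfNat.ofNat_ne_one]
  ring

theorem slack_nonneg (s0 s1 s2 s3 e01 e02 e03 e12 e13 e23 : ℕ) (h0 : s0 < 3) (h1 : s1 < 3)
    (h2 : s2 < 3) (h3 : s3 < 3) (k01 : e01 < 2) (k02 : e02 < 2) (k03 : e03 < 2) (k12 : e12 < 2)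
    (k13 : e13 < 2) (k23 : e23 < 2) : 0 ≤ slack s0 s1 s2 s3 e01 e02 e03 e12 e13 e23 := by
  have h : chk s0 s1 = true := by
    interval_cases s0 <;> interval_cases s1
    · exact chk00
    · exact chk01
    · exact chk02
    · exact chk10
    · exact chk11
    · exact chk12
    · exact chk20
    · exact chk21
    · exact chk22
  have m3 : ∀ s : ℕ, s < 3 → s ∈ [0, 1, 2] := by
    intro s hs; interval_cases s <;> simp
  have m2 : ∀ s : ℕ, s < 2 → s ∈ [0, 1] := by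
    intro s hs; interval_cases s <;> simp
  unfold chk at h
  have g := List.all_eq_true.1 (List.all_eq_true.1 (List.all_eq_true.1 (List.all_eq_true.1
    (List.all_eq_true.1 (List.all_eq_true.1 (List.all_eq_true.1 (List.all_eq_true.1 h
      s2 (m3 s2 h2)) s3 (m3 s3 h3)) e01 (m2 _ k01)) e02 (m2 _ k02)) e03 (m2 _ k03)) e12
        (m2 _ k12)) e13 (m2 _ k13)) e23 (m2 _ k23)
  exact of_decide_eq_true g

section

variable (k : ℕ) (a : ℕ → ℕ → ℤ)

/-- Adjacency of the vertices with types `s`, `s'` and ranks `r`, `r'`. -/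
def ee (s r s' r' : ℕ) : ℕ := (a (pos k s r) (pos k s' r')).toNat

theorem ee_comm (hs : ∀ i j, a i j = a j i) (s r s' r' : ℕ) : ee k a s r s' r' = ee k a s' r' s r := by
  unfold ee; rw [hs]

theorem ee_lt (ha : ∀ i j, a i j = 0 ∨ a i j = 1) (s r s' r' : ℕ) : ee k a s r s' r' < 2 := by
  unfold ee; rcases ha (pos k s r) (pos k s' r') with h | h <;> rw [h] <;> norm_num

theorem pos_lt {s s' r r' : ℕ} (hs : s < 3) (hs' : s' < 3) (h : r < r') (hk : r' < k) :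
    (pos k s r < pos k s' r' ↔ before s s' = true) ∧
    (pos k s' r' < pos k s r ↔ before s s' = false) := by
  interval_cases s <;> interval_cases s' <;> simp [pos, before] <;> omega

theorem eta_h3 (ha : ∀ i j, a i j = 0 ∨ a i j = 1) {s0 s1 s2 r0 r1 r2 : ℕ}
    (h0 : s0 < 3) (h1 : s1 < 3) (h2 : s2 < 3) (k0 : r0 < r1) (k1 : r1 < r2) (k2 : r2 < k) :
    eta a (pos k s0 r0) (pos k s1 r1) (pos k s2 r2)
      = (h3 s0 s1 s2 (ee k a s0 r0 s1 r1) (ee k a s0 r0 s2 r2) (ee k a s1 r1 s2 r2) : ℕ) := by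
  obtain ⟨p1, p1'⟩ := pos_lt k h0 h1 k0 (k1.trans k2)
  obtain ⟨p2, p2'⟩ := pos_lt k h0 h2 (k0.trans k1) k2
  obtain ⟨p3, p3'⟩ := pos_lt k h1 h2 k1 k2
  unfold h3 eta ee
  generalize pos k s0 r0 = u at *
  generalize pos k s1 r1 = v at *
  generalize pos k s2 r2 = w at *
  generalize before s0 s1 = b1 at *
  generalize before s0 s2 = b2 at *
  generalize before s1 s2 = b3 at *
  have key : ∀ x y z : ℤ, (x = 0 ∨ x = 1) → (y = 0 ∨ y = 1) → (z = 0 ∨ z = 1) →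
      x * (1 - y * z) = ((x.toNat * (1 - y.toNat * z.toNat) : ℕ) : ℤ) := by
    intro x y z hx hy hz
    rcases hx with h | h <;> rcases hy with h' | h' <;> rcases hz with h'' | h'' <;>
      rw [h, h', h''] <;> norm_num
  cases b1 <;> cases b2 <;> cases b3 <;>
    simp only [Bool.false_eq_true, iff_true, iff_false, not_lt, reduceCtorEq] at p1 p1' p2 p2' p3 p3'
  · -- false false false : w < u, w < v
    rw [if_neg (by omega), if_neg (by omega), if_pos (by omega)]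
    simpa using key _ _ _ (ha u v) (ha u w) (ha v w)
  · rw [if_neg (by omega), if_pos (by omega)]
    simpa using key _ _ _ (ha u w) (ha u v) (ha v w)
  · omega
  · rw [if_neg (by omega), if_pos (by omega)]
    simpa using key _ _ _ (ha u w) (ha u v) (ha v w)
  · rw [if_neg (by omega), if_neg (by omega), if_pos (by omega)]
    simpa using key _ _ _ (ha u v) (ha u w) (ha v w)
  · omega
  · rw [if_pos (by omega)]
    simpa using key _ _ _ (ha v w) (ha u v) (ha u w)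
  · rw [if_pos (by omega)]
    simpa using key _ _ _ (ha v w) (ha u v) (ha u w)

end

/-- Sum over the types of four vertices. -/
def E4 (f : ℕ → ℕ → ℕ → ℕ → ℤ) : ℤ :=
  ∑ s0 ∈ range 3, ∑ s1 ∈ range 3, ∑ s2 ∈ range 3, ∑ s3 ∈ range 3, f s0 s1 s2 s3

theorem E4_s01 (f : ℕ → ℕ → ℕ → ℕ → ℤ) : E4 (fun a b c d => f b a c d) = E4 f := by
  unfold E4; exact sum_comm

theorem E4_s12 (f : ℕ → ℕ → ℕ → ℕ → ℤ) : E4 (fun a b c d => f a c b d) = E4 f := by
  unfold E4; exact sum_congr rfl fun _ _ => sum_comm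

theorem E4_s23 (f : ℕ → ℕ → ℕ → ℕ → ℤ) : E4 (fun a b c d => f a b d c) = E4 f := by
  unfold E4; exact sum_congr rfl fun _ _ => sum_congr rfl fun _ _ => sum_comm

theorem E4_0213 (f : ℕ → ℕ → ℕ → ℕ → ℤ) : E4 (fun a b c d => f a c b d) = E4 f := E4_s12 f

theorem E4_0312 (f : ℕ → ℕ → ℕ → ℕ → ℤ) : E4 (fun a b c d => f a d b c) = E4 f :=
  (E4_s23 (fun x y z w => f x z y w)).trans (E4_s12 f)

theorem E4_1203 (f : ℕ → ℕ → ℕ → ℕ → ℤ) : E4 (fun a b c d => f b c a d) = E4 f :=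
  (E4_s01 (fun x y z w => f x z y w)).trans (E4_s12 f)

theorem E4_1302 (f : ℕ → ℕ → ℕ → ℕ → ℤ) : E4 (fun a b c d => f b d a c) = E4 f :=
  (E4_s01 (fun x y z w => f x w y z)).trans (E4_0312 f)

theorem E4_2301 (f : ℕ → ℕ → ℕ → ℕ → ℤ) : E4 (fun a b c d => f c d a b) = E4 f :=
  (E4_s12 (fun x y z w => f y w x z)).trans (E4_1302 f)

/-- Sum over the types of three vertices. -/
def E3 (g : ℕ → ℕ → ℕ → ℤ) : ℤ :=
  ∑ s0 ∈ range 3, ∑ s1 ∈ range 3, ∑ s2 ∈ range 3, g s0 s1 s2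

theorem E4_012 (g : ℕ → ℕ → ℕ → ℤ) : E4 (fun a b c _ => g a b c) = 3 * E3 g := by
  unfold E4 E3
  simp only [sum_const, card_range, ← mul_sum, nsmul_eq_mul]
  rfl

theorem E4_013 (g : ℕ → ℕ → ℕ → ℤ) : E4 (fun a b _ d => g a b d) = 3 * E3 g :=
  (E4_s23 (fun a b c _ => g a b c)).trans (E4_012 g)

theorem E4_023 (g : ℕ → ℕ → ℕ → ℤ) : E4 (fun a _ c d => g a c d) = 3 * E3 g :=
  (E4_s12 (fun a b _ d => g a b d)).trans (E4_013 g)

theorem E4_123 (g : ℕ → ℕ → ℕ → ℤ) : E4 (fun _ b c d => g b c d) = 3 * E3 g :=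
  (E4_s01 (fun a _ c d => g a c d)).trans (E4_023 g)

theorem E4_zero3 (f : ℕ → ℕ → ℕ → ℕ → ℤ) (h : ∀ a b c, ∑ s ∈ range 3, f a b c s = 0) :
    E4 f = 0 :=
  sum_eq_zero fun _ _ => sum_eq_zero fun _ _ => sum_eq_zero fun _ _ => h _ _ _

theorem E4_zero2 (f : ℕ → ℕ → ℕ → ℕ → ℤ) (h : ∀ a b d, ∑ s ∈ range 3, f a b s d = 0) :
    E4 f = 0 := by
  rw [← E4_s23 f]; exact E4_zero3 _ fun a b d => h a b d

theorem E4_zero1 (f : ℕ → ℕ → ℕ → ℕ → ℤ) (h : ∀ a c d, ∑ s ∈ range 3, f a s c d = 0) :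
    E4 f = 0 := by
  rw [← E4_s12 f]; exact E4_zero2 _ fun a b d => h a b d

theorem E4_zero0 (f : ℕ → ℕ → ℕ → ℕ → ℤ) (h : ∀ b c d, ∑ s ∈ range 3, f s b c d = 0) :
    E4 f = 0 := by
  rw [← E4_s01 f]; exact E4_zero1 _ fun a b d => h a b d

theorem E4_congr {f g : ℕ → ℕ → ℕ → ℕ → ℤ}
    (h : ∀ a b c d, a < 3 → b < 3 → c < 3 → d < 3 → f a b c d = g a b c d) : E4 f = E4 g :=
  sum_congr rfl fun a ha => sum_congr rfl fun b hb => sum_congr rfl fun c hc =>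
    sum_congr rfl fun d hd => h a b c d (mem_range.1 ha) (mem_range.1 hb) (mem_range.1 hc)
      (mem_range.1 hd)

theorem E4_nonneg {f : ℕ → ℕ → ℕ → ℕ → ℤ}
    (h : ∀ a b c d, a < 3 → b < 3 → c < 3 → d < 3 → 0 ≤ f a b c d) : 0 ≤ E4 f :=
  sum_nonneg fun a ha => sum_nonneg fun b hb => sum_nonneg fun c hc =>
    sum_nonneg fun d hd => h a b c d (mem_range.1 ha) (mem_range.1 hb) (mem_range.1 hc)
      (mem_range.1 hd)

theorem E4_split (x y : ℤ) (h1 h2 h3 h4 q1 q2 q3 q4 q5 q6 f1 f2 f3 f4 : ℕ → ℕ → ℕ → ℕ → ℤ) :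
    E4 (fun a b c d => x - y * (h1 a b c d + h2 a b c d + h3 a b c d + h4 a b c d)
        - 4 * (q1 a b c d + q2 a b c d + q3 a b c d + q4 a b c d + q5 a b c d + q6 a b c d)
        + 4 * (f1 a b c d + f2 a b c d + f3 a b c d + f4 a b c d))
      = 81 * x - y * (E4 h1 + E4 h2 + E4 h3 + E4 h4)
        - 4 * (E4 q1 + E4 q2 + E4 q3 + E4 q4 + E4 q5 + E4 q6)
        + 4 * (E4 f1 + E4 f2 + E4 f3 + E4 f4) := by
  unfold E4
  simp only [sum_add_distrib, sum_sub_distrib, ← mul_sum, sum_const, card_range, nsmul_eq_mul]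
  push_cast
  ring

section

variable (k : ℕ) (a : ℕ → ℕ → ℤ)

/-- Position of the rank `r` relative to the ranks `ra < rb`. -/
def slot (ra rb r : ℕ) : ℕ := if r < ra then 0 else if r < rb then 1 else 2

/-- The product of two entries. -/
def PP (ra rb rc rd sa sb sc sd : ℕ) : ℤ :=
  QQ (ty sa sb (ee k a sa ra sb rb)) (fc (slot ra rb rc) sc (ee k a sa ra sc rc) (ee k a sb rb sc rc))
    (fc (slot ra rb rd) sd (ee k a sa ra sd rd) (ee k a sb rb sd rd))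

/-- A linear form in the flags with given two labelled vertices. -/
def GG (m sa ra sb rb r : ℕ) : ℤ :=
  if r = ra ∨ r = rb then 0 else ∑ s ∈ range 3,
    cc (ty sa sb (ee k a sa ra sb rb)) (fc (slot ra rb r) s (ee k a sa ra s r) (ee k a sb rb s r)) m

/-- Sum of the products of the forms. -/
def psi (ra rb rc rd : ℕ) : ℤ :=
  ∑ sa ∈ range 3, ∑ sb ∈ range 3, ∑ m ∈ range 33, GG k a m sa ra sb rb rc * GG k a m sa ra sb rb rd

theorem psi_eq {ra rb rc rd : ℕ} (h1 : rc ≠ ra) (h2 : rc ≠ rb) (h3 : rd ≠ ra) (h4 : rd ≠ rb) :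
    psi k a ra rb rc rd = E4 (PP k a ra rb rc rd) := by
  unfold psi E4 PP
  refine sum_congr rfl fun sa _ => sum_congr rfl fun sb _ => ?_
  simp only [GG, h1, h2, h3, h4, or_self, if_false, QQ_eq]
  simp only [sum_mul_sum]
  rw [sum_comm]
  refine sum_congr rfl fun sc _ => ?_
  rw [sum_comm]

theorem quad (hs : ∀ i j, a i j = a j i) (ha : ∀ i j, a i j = 0 ∨ a i j = 1) {r0 r1 r2 r3 : ℕ}
    (k0 : r0 < r1) (k1 : r1 < r2) (k2 : r2 < r3) (k3 : r3 < k) :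
    0 ≤ 81 * 38201157117 - 51539607552 * (zeta k a r1 r2 r3 + zeta k a r0 r2 r3
          + zeta k a r0 r1 r3 + zeta k a r0 r1 r2)
        - 4 * (psi k a r0 r1 r2 r3 + psi k a r0 r2 r1 r3 + psi k a r0 r3 r1 r2
          + psi k a r1 r2 r0 r3 + psi k a r1 r3 r0 r2 + psi k a r2 r3 r0 r1) := by
  set sl : ℕ → ℕ → ℕ → ℕ → ℤ := fun s0 s1 s2 s3 =>
    slack s0 s1 s2 s3 (ee k a s0 r0 s1 r1) (ee k a s0 r0 s2 r2) (ee k a s0 r0 s3 r3)
      (ee k a s1 r1 s2 r2) (ee k a s1 r1 s3 r3) (ee k a s2 r2 s3 r3) with hsl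
  have h0 : 0 ≤ E4 sl := E4_nonneg fun s0 s1 s2 s3 g0 g1 g2 g3 =>
    slack_nonneg _ _ _ _ _ _ _ _ _ _ g0 g1 g2 g3 (ee_lt k a ha _ _ _ _) (ee_lt k a ha _ _ _ _)
      (ee_lt k a ha _ _ _ _) (ee_lt k a ha _ _ _ _) (ee_lt k a ha _ _ _ _) (ee_lt k a ha _ _ _ _)
  have h1 : E4 sl = E4 (fun s0 s1 s2 s3 => 38201157117
      - 17179869184 * (eta a (pos k s1 r1) (pos k s2 r2) (pos k s3 r3)
        + eta a (pos k s0 r0) (pos k s2 r2) (pos k s3 r3)
        + eta a (pos k s0 r0) (pos k s1 r1) (pos k s3 r3)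
        + eta a (pos k s0 r0) (pos k s1 r1) (pos k s2 r2))
      - 4 * (PP k a r0 r1 r2 r3 s0 s1 s2 s3 + PP k a r0 r2 r1 r3 s0 s2 s1 s3
        + PP k a r0 r3 r1 r2 s0 s3 s1 s2 + PP k a r1 r2 r0 r3 s1 s2 s0 s3
        + PP k a r1 r3 r0 r2 s1 s3 s0 s2 + PP k a r2 r3 r0 r1 s2 s3 s0 s1)
      + 4 * (FF (wd s1 s2 s3) (gr (ee k a s1 r1 s2 r2) (ee k a s1 r1 s3 r3) (ee k a s2 r2 s3 r3)) 0 s0
        + FF (wd s0 s2 s3) (gr (ee k a s0 r0 s2 r2) (ee k a s0 r0 s3 r3) (ee k a s2 r2 s3 r3)) 1 s1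
        + FF (wd s0 s1 s3) (gr (ee k a s0 r0 s1 r1) (ee k a s0 r0 s3 r3) (ee k a s1 r1 s3 r3)) 2 s2
        + FF (wd s0 s1 s2) (gr (ee k a s0 r0 s1 r1) (ee k a s0 r0 s2 r2) (ee k a s1 r1 s2 r2)) 3 s3)) := by
    refine E4_congr fun s0 s1 s2 s3 g0 g1 g2 g3 => ?_
    rw [eta_h3 k a ha g0 g1 g2 k0 k1 (k2.trans k3), eta_h3 k a ha g0 g1 g3 k0 (k1.trans k2) k3,
      eta_h3 k a ha g0 g2 g3 (k0.trans k1) k2 k3, eta_h3 k a ha g1 g2 g3 k1 k2 k3]
    have t01 : slot r0 r1 r2 = 2 := by unfold slot; rw [if_neg (by omega), if_neg (by omega)]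
    have t02 : slot r0 r1 r3 = 2 := by unfold slot; rw [if_neg (by omega), if_neg (by omega)]
    have t03 : slot r0 r2 r1 = 1 := by unfold slot; rw [if_neg (by omega), if_pos (by omega)]
    have t04 : slot r0 r2 r3 = 2 := by unfold slot; rw [if_neg (by omega), if_neg (by omega)]
    have t05 : slot r0 r3 r1 = 1 := by unfold slot; rw [if_neg (by omega), if_pos (by omega)]
    have t06 : slot r0 r3 r2 = 1 := by unfold slot; rw [if_neg (by omega), if_pos (by omega)]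
    have t07 : slot r1 r2 r0 = 0 := by unfold slot; rw [if_pos (by omega)]
    have t08 : slot r1 r2 r3 = 2 := by unfold slot; rw [if_neg (by omega), if_neg (by omega)]
    have t09 : slot r1 r3 r0 = 0 := by unfold slot; rw [if_pos (by omega)]
    have t10 : slot r1 r3 r2 = 1 := by unfold slot; rw [if_neg (by omega), if_pos (by omega)]
    have t11 : slot r2 r3 r0 = 0 := by unfold slot; rw [if_pos (by omega)]
    have t12 : slot r2 r3 r1 = 0 := by unfold slot; rw [if_pos (by omega)]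
    simp only [hsl, slack, PP, t01, t02, t03, t04, t05, t06, t07, t08, t09, t10, t11, t12]
    rw [ee_comm k a hs s1 r1 s0 r0, ee_comm k a hs s2 r2 s0 r0, ee_comm k a hs s3 r3 s0 r0,
      ee_comm k a hs s2 r2 s1 r1, ee_comm k a hs s3 r3 s1 r1, ee_comm k a hs s3 r3 s2 r2]
    push_cast
    ring
  rw [h1, E4_split] at h0
  have z1 : E4 (fun _ s1 s2 s3 => eta a (pos k s1 r1) (pos k s2 r2) (pos k s3 r3))
      = 3 * zeta k a r1 r2 r3 := E4_123 fun s1 s2 s3 => eta a (pos k s1 r1) (pos k s2 r2) (pos k s3 r3)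
  have z2 : E4 (fun s0 _ s2 s3 => eta a (pos k s0 r0) (pos k s2 r2) (pos k s3 r3))
      = 3 * zeta k a r0 r2 r3 := E4_023 fun s0 s2 s3 => eta a (pos k s0 r0) (pos k s2 r2) (pos k s3 r3)
  have z3 : E4 (fun s0 s1 _ s3 => eta a (pos k s0 r0) (pos k s1 r1) (pos k s3 r3))
      = 3 * zeta k a r0 r1 r3 := E4_013 fun s0 s1 s3 => eta a (pos k s0 r0) (pos k s1 r1) (pos k s3 r3)
  have z4 : E4 (fun s0 s1 s2 _ => eta a (pos k s0 r0) (pos k s1 r1) (pos k s2 r2))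
      = 3 * zeta k a r0 r1 r2 := E4_012 fun s0 s1 s2 => eta a (pos k s0 r0) (pos k s1 r1) (pos k s2 r2)
  have p1 := E4_0213 (PP k a r0 r2 r1 r3)
  have p2 := E4_0312 (PP k a r0 r3 r1 r2)
  have p3 := E4_1203 (PP k a r1 r2 r0 r3)
  have p4 := E4_1302 (PP k a r1 r3 r0 r2)
  have p5 := E4_2301 (PP k a r2 r3 r0 r1)
  have y0 := psi_eq k a (ra := r0) (rb := r1) (rc := r2) (rd := r3) (by omega) (by omega) (by omega) (by omega)
  have y1 := psi_eq k a (ra := r0) (rb := r2) (rc := r1) (rd := r3) (by omega) (by omega) (by omega) (by omega)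
  have y2 := psi_eq k a (ra := r0) (rb := r3) (rc := r1) (rd := r2) (by omega) (by omega) (by omega) (by omega)
  have y3 := psi_eq k a (ra := r1) (rb := r2) (rc := r0) (rd := r3) (by omega) (by omega) (by omega) (by omega)
  have y4 := psi_eq k a (ra := r1) (rb := r3) (rc := r0) (rd := r2) (by omega) (by omega) (by omega) (by omega)
  have y5 := psi_eq k a (ra := r2) (rb := r3) (rc := r0) (rd := r1) (by omega) (by omega) (by omega) (by omega)
  have f0 := E4_zero0 (fun s0 s1 s2 s3 => FF (wd s1 s2 s3) (gr (ee k a s1 r1 s2 r2)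
    (ee k a s1 r1 s3 r3) (ee k a s2 r2 s3 r3)) 0 s0) (fun _ _ _ => FF_sum _ _ _)
  have f1 := E4_zero1 (fun s0 s1 s2 s3 => FF (wd s0 s2 s3) (gr (ee k a s0 r0 s2 r2)
    (ee k a s0 r0 s3 r3) (ee k a s2 r2 s3 r3)) 1 s1) (fun _ _ _ => FF_sum _ _ _)
  have f2 := E4_zero2 (fun s0 s1 s2 s3 => FF (wd s0 s1 s3) (gr (ee k a s0 r0 s1 r1)
    (ee k a s0 r0 s3 r3) (ee k a s1 r1 s3 r3)) 2 s2) (fun _ _ _ => FF_sum _ _ _)
  have f3 := E4_zero3 (fun s0 s1 s2 s3 => FF (wd s0 s1 s2) (gr (ee k a s0 r0 s1 r1)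
    (ee k a s0 r0 s2 r2) (ee k a s1 r1 s2 r2)) 3 s3) (fun _ _ _ => FF_sum _ _ _)
  rw [z1, z2, z3, z4, p1, p2, p3, p4, p5, ← y1, ← y2, ← y3, ← y4, ← y5, f0, f1, f2, f3] at h0
  have y0' : E4 (fun s0 s1 s2 s3 => PP k a r0 r1 r2 r3 s0 s1 s2 s3) = psi k a r0 r1 r2 r3 := y0.symm
  rw [y0'] at h0
  linarith

end

end Pool.Agent.H7.OG
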