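import Pool.Agent.H7.OG.Tab

/-!
# The pointwise inequality of the certificate
-/

namespace Pool.Agent.H7.OG

/-- Scalar product of two columns. -/
def dotN : ℕ → ℕ → ℕ → ℤ
  | 0, _, _ => 0
  | n + 1, u, v => (((u % 524288 : ℕ) : ℤ) - 262144) * (((v % 524288 : ℕ) : ℤ) - 262144)
      + dotN n (u / 524288) (v / 524288)

/-- The entries of the positive semidefinite matrices. -/
def QQ (t i j : ℕ) : ℤ :=
  dotN 33 ((colTab.getD t []).getD i 0) ((colTab.getD t []).getD j 0)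

/-- The free multipliers; their sum over `s = 0, 1, 2` is zero. -/
def FF (w g x s : ℕ) : ℤ :=
  if s = 0 then ((freeTab.getD (w * 8 + g) 0 / 2 ^ (68 * x) % 2 ^ 34 : ℕ) : ℤ) - 2 ^ 33
  else if s = 1 then ((freeTab.getD (w * 8 + g) 0 / 2 ^ (68 * x + 34) % 2 ^ 34 : ℕ) : ℤ) - 2 ^ 33
  else - (((freeTab.getD (w * 8 + g) 0 / 2 ^ (68 * x) % 2 ^ 34 : ℕ) : ℤ) - 2 ^ 33)
    - (((freeTab.getD (w * 8 + g) 0 / 2 ^ (68 * x + 34) % 2 ^ 34 : ℕ) : ℤ) - 2 ^ 33)

/-- Whether a vertex of type `s` comes before a vertex of type `t` of larger rank. -/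
def before (s t : ℕ) : Bool := decide (s < t) || (s == t && s != 1)

/-- Indicator of the triples of the 3-graph. -/
def h3 (s0 s1 s2 e01 e02 e12 : ℕ) : ℕ :=
  if before s0 s1 && before s0 s2 then e12 * (1 - e01 * e02)
  else if !before s0 s1 && before s1 s2 then e02 * (1 - e01 * e12)
  else e01 * (1 - e02 * e12)

/-- The code of a type. -/
def ty (sa sb e : ℕ) : ℕ := (sa * 3 + sb) * 2 + e

/-- The code of a flag. -/
def fc (slot s ea eb : ℕ) : ℕ := (slot * 3 + s) * 4 + 2 * ea + eb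

/-- The code of a word. -/
def wd (s0 s1 s2 : ℕ) : ℕ := s0 * 9 + s1 * 3 + s2

/-- The code of a graph with three vertices. -/
def gr (e01 e02 e12 : ℕ) : ℕ := e01 + 2 * e02 + 4 * e12

/-- The slack of the certificate. -/
def slack (s0 s1 s2 s3 e01 e02 e03 e12 e13 e23 : ℕ) : ℤ :=
  38201157117
    - 17179869184 * ((h3 s0 s1 s2 e01 e02 e12 + h3 s0 s1 s3 e01 e03 e13
        + h3 s0 s2 s3 e02 e03 e23 + h3 s1 s2 s3 e12 e13 e23 : ℕ) : ℤ)
    - 4 * (QQ (ty s0 s1 e01) (fc 2 s2 e02 e12) (fc 2 s3 e03 e13)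
        + QQ (ty s0 s2 e02) (fc 1 s1 e01 e12) (fc 2 s3 e03 e23)
        + QQ (ty s0 s3 e03) (fc 1 s1 e01 e13) (fc 1 s2 e02 e23)
        + QQ (ty s1 s2 e12) (fc 0 s0 e01 e02) (fc 2 s3 e13 e23)
        + QQ (ty s1 s3 e13) (fc 0 s0 e01 e03) (fc 1 s2 e12 e23)
        + QQ (ty s2 s3 e23) (fc 0 s0 e02 e03) (fc 0 s1 e12 e13))
    + 4 * (FF (wd s1 s2 s3) (gr e12 e13 e23) 0 s0 + FF (wd s0 s2 s3) (gr e02 e03 e23) 1 s1
        + FF (wd s0 s1 s3) (gr e01 e03 e13) 2 s2 + FF (wd s0 s1 s2) (gr e01 e02 e12) 3 s3)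

/-- The check for given types of the first two vertices. -/
def chk (s0 s1 : ℕ) : Bool :=
  [0, 1, 2].all fun s2 => [0, 1, 2].all fun s3 =>
  [0, 1].all fun e01 => [0, 1].all fun e02 => [0, 1].all fun e03 =>
  [0, 1].all fun e12 => [0, 1].all fun e13 => [0, 1].all fun e23 =>
    decide (0 ≤ slack s0 s1 s2 s3 e01 e02 e03 e12 e13 e23)


theorem chk00 : chk 0 0 = true := by decide +kernel

theorem chk01 : chk 0 1 = true := by decide +kernel

theorem chk02 : chk 0 2 = true := by decide +kernel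

theorem chk10 : chk 1 0 = true := by decide +kernel

theorem chk11 : chk 1 1 = true := by decide +kernel

theorem chk12 : chk 1 2 = true := by decide +kernel

theorem chk20 : chk 2 0 = true := by decide +kernel

theorem chk21 : chk 2 1 = true := by decide +kernel

theorem chk22 : chk 2 2 = true := by decide +kernel

end Pool.Agent.H7.OG
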