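import Mathlib

/-!
# Ordered graphs and `K_4^3`-free 3-graphs: the counting argument

All sums are over natural numbers; `a x y ∈ {0, 1}` is the adjacency function of a graph.
-/

namespace Pool.Agent.H7.OG

open Finset

theorem pair_sym (k : ℕ) (φ : ℕ → ℕ → ℤ) (hs : ∀ i j, φ i j = φ j i) (h0 : ∀ i, φ i i = 0) :
    2 * ∑ l ∈ range k, ∑ j ∈ range l, φ j l = ∑ l ∈ range k, ∑ j ∈ range k, φ j l := by
  induction k with
  | zero => simp
  | succ k ih =>
    have h1 : ∑ l ∈ range k, ∑ j ∈ range (k + 1), φ j l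
        = ∑ l ∈ range k, ∑ j ∈ range k, φ j l + ∑ l ∈ range k, φ k l := by
      rw [← sum_add_distrib]; exact sum_congr rfl fun l _ => sum_range_succ _ _
    have h2 : ∑ l ∈ range k, φ k l = ∑ j ∈ range k, φ j k := sum_congr rfl fun l _ => hs _ _
    rw [sum_range_succ, mul_add, ih, sum_range_succ, h1, sum_range_succ, h0, h2]
    ring

theorem pair_prod (k : ℕ) (x : ℕ → ℤ) (hx : ∀ i, x i * x i = x i) :
    2 * ∑ l ∈ range k, ∑ j ∈ range l, x j * x l
      = (∑ i ∈ range k, x i) ^ 2 - ∑ i ∈ range k, x i := by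
  induction k with
  | zero => simp
  | succ k ih =>
    rw [sum_range_succ, mul_add, ih, sum_range_succ, ← sum_mul]
    have := hx k
    linear_combination -this

theorem pair_add (k : ℕ) (x : ℕ → ℤ) :
    ∑ j ∈ range k, ∑ i ∈ range j, (x i + x j) = ((k : ℤ) - 1) * ∑ i ∈ range k, x i := by
  induction k with
  | zero => simp
  | succ k ih =>
    rw [sum_range_succ, ih, sum_range_succ, sum_add_distrib, sum_const, card_range]
    push_cast
    simp only [nsmul_eq_mul]
    ring

theorem triple_one (k : ℕ) (B : ℕ → ℕ → ℤ) :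
    ∑ l ∈ range k, ∑ j ∈ range l, ∑ i ∈ range j, (B i j + B i l + B j l)
      = ((k : ℤ) - 2) * ∑ l ∈ range k, ∑ j ∈ range l, B j l := by
  induction k with
  | zero => simp
  | succ k ih =>
    rw [sum_range_succ, ih, sum_range_succ]
    have h1 : ∑ j ∈ range k, ∑ i ∈ range j, (B i j + B i k + B j k)
        = ∑ j ∈ range k, ∑ i ∈ range j, B i j + ∑ j ∈ range k, ∑ i ∈ range j, (B i k + B j k) := by
      rw [← sum_add_distrib]
      refine sum_congr rfl fun j _ => ?_
      rw [← sum_add_distrib]
      exact sum_congr rfl fun i _ => by ring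
    rw [h1, pair_add k (fun i => B i k)]
    push_cast
    ring

theorem triple_two (k : ℕ) (B : ℕ → ℕ → ℤ) (hs : ∀ i j, B i j = B j i) (h0 : ∀ i, B i i = 0)
    (h1 : ∀ i j, B i j * B i j = B i j) :
    2 * ∑ l ∈ range k, ∑ j ∈ range l, ∑ i ∈ range j,
        (B i j * B i l + B i j * B j l + B i l * B j l)
      = ∑ t ∈ range k, ((∑ j ∈ range k, B t j) ^ 2 - ∑ j ∈ range k, B t j) := by
  induction k with
  | zero => simp
  | succ k ih =>
    have e1 : ∑ j ∈ range k, ∑ i ∈ range j, (B i j * B i k + B i j * B j k + B i k * B j k)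
        = ∑ j ∈ range k, ∑ i ∈ range j, B i j * (B i k + B j k)
          + ∑ j ∈ range k, ∑ i ∈ range j, B i k * B j k := by
      rw [← sum_add_distrib]
      refine sum_congr rfl fun j _ => ?_
      rw [← sum_add_distrib]
      exact sum_congr rfl fun i _ => by ring
    have e2 := pair_sym k (fun i j => B i j * (B i k + B j k))
      (fun i j => by simp only [hs i j]; ring) (fun i => by simp [h0])
    have e3 := pair_prod k (fun i => B i k) (fun i => h1 _ _)
    have e4 : ∑ l ∈ range k, ∑ j ∈ range k, B j l * (B j k + B l k)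
        = 2 * ∑ t ∈ range k, (∑ j ∈ range k, B t j) * B t k := by
      have a1 : ∑ l ∈ range k, ∑ j ∈ range k, B j l * (B j k + B l k)
          = ∑ l ∈ range k, ∑ j ∈ range k, B j l * B j k
            + ∑ l ∈ range k, ∑ j ∈ range k, B j l * B l k := by
        rw [← sum_add_distrib]
        refine sum_congr rfl fun j _ => ?_
        rw [← sum_add_distrib]
        exact sum_congr rfl fun i _ => by ring
      have a2 : ∑ l ∈ range k, ∑ j ∈ range k, B j l * B j k
          = ∑ t ∈ range k, (∑ j ∈ range k, B t j) * B t k := by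
        rw [sum_comm]
        exact sum_congr rfl fun j _ => by rw [sum_mul]
      have a3 : ∑ l ∈ range k, ∑ j ∈ range k, B j l * B l k
          = ∑ t ∈ range k, (∑ j ∈ range k, B t j) * B t k := by
        refine sum_congr rfl fun j _ => ?_
        rw [sum_mul]
        exact sum_congr rfl fun i _ => by rw [hs i j]
      rw [a1, a2, a3]; ring
    have e5 : ∑ t ∈ range k, ((∑ j ∈ range (k + 1), B t j) ^ 2 - ∑ j ∈ range (k + 1), B t j)
        = ∑ t ∈ range k, ((∑ j ∈ range k, B t j) ^ 2 - ∑ j ∈ range k, B t j)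
          + 2 * ∑ t ∈ range k, (∑ j ∈ range k, B t j) * B t k := by
      rw [mul_sum, ← sum_add_distrib]
      refine sum_congr rfl fun t _ => ?_
      rw [sum_range_succ]
      have := h1 t k
      linear_combination this
    have e6 : ∑ j ∈ range (k + 1), B k j = ∑ i ∈ range k, B i k := by
      rw [sum_range_succ, h0, add_zero]
      exact sum_congr rfl fun i _ => hs _ _
    rw [sum_range_succ, mul_add, ih, e1, sum_range_succ, e5, e6]
    rw [e4] at e2
    linear_combination e2 + e3

/-- The rank inequality. -/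
theorem rank_ineq (m : ℕ) (x P : ℕ → ℤ) (hx : ∀ i, x i = 0 ∨ (x i = 1 ∧ P i = 1))
    (hP : ∀ i, P i = 0 ∨ P i = 1) :
    (∑ y ∈ range m, x y) ^ 2 + ∑ y ∈ range m, x y
      ≤ 2 * ∑ y ∈ range m, x y * (∑ v ∈ range m, P v - ∑ v ∈ range y, P v) := by
  induction m with
  | zero => simp
  | succ m ih =>
    have e1 : ∑ y ∈ range m, x y * (∑ v ∈ range (m + 1), P v - ∑ v ∈ range y, P v)
        = ∑ y ∈ range m, x y * (∑ v ∈ range m, P v - ∑ v ∈ range y, P v)
          + (∑ y ∈ range m, x y) * P m := by
      rw [sum_mul, ← sum_add_distrib]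
      refine sum_congr rfl fun y _ => ?_
      rw [sum_range_succ]; ring
    have hi : 0 ≤ ∑ y ∈ range m, x y :=
      sum_nonneg fun i _ => by rcases hx i with h | h <;> simp [h]
    rw [sum_range_succ, sum_range_succ _ m, e1, sum_range_succ P m]
    rcases hx m with h | ⟨h, h'⟩
    · rw [h]
      rcases hP m with g | g <;> rw [g] <;> nlinarith
    · rw [h, h']
      nlinarith

/-- Edges of a complete bipartite graph inside a set. -/
theorem bip_edges (m : ℕ) (P E : ℕ → ℤ) (hP : ∀ i, P i = 0 ∨ P i = 1) :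
    ∑ y ∈ range m, ∑ x ∈ range y, (P x * (1 - P y) + (1 - P x) * P y) * (E x * E y)
      = (∑ y ∈ range m, E y * P y) * ∑ y ∈ range m, E y * (1 - P y) := by
  induction m with
  | zero => simp
  | succ m ih =>
    have e1 : ∑ x ∈ range m, (P x * (1 - P m) + (1 - P x) * P m) * (E x * E m)
        = (∑ x ∈ range m, E x * P x) * (E m * (1 - P m))
          + (∑ x ∈ range m, E x * (1 - P x)) * (E m * P m) := by
      rw [sum_mul, sum_mul, ← sum_add_distrib]
      exact sum_congr rfl fun x _ => by ring
    have h : P m * (1 - P m) = 0 := by rcases hP m with h | h <;> simp [h]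
    rw [sum_range_succ, ih, e1, sum_range_succ, sum_range_succ]
    linear_combination (-(E m * E m)) * h

/-- Interchanging the order of summation over pairs. -/
theorem swap_pairs (m : ℕ) (φ χ : ℕ → ℤ) :
    ∑ z ∈ range m, ∑ y ∈ range z, φ y * χ z
      = ∑ y ∈ range m, φ y * (∑ v ∈ range m, χ v - ∑ v ∈ range (y + 1), χ v) := by
  induction m with
  | zero => simp
  | succ m ih =>
    have e1 : ∑ y ∈ range m, φ y * (∑ v ∈ range (m + 1), χ v - ∑ v ∈ range (y + 1), χ v)
        = ∑ y ∈ range m, φ y * (∑ v ∈ range m, χ v - ∑ v ∈ range (y + 1), χ v)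
          + ∑ y ∈ range m, φ y * χ m := by
      rw [← sum_add_distrib]
      refine sum_congr rfl fun y _ => ?_
      rw [sum_range_succ]; ring
    rw [sum_range_succ, ih, sum_range_succ _ m, e1, sub_self, mul_zero, add_zero]

end Pool.Agent.H7.OG
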