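import Pool.Agent.H7.OG.Gen
import Pool.Agent.H7.OG.Bridge

/-!
# The cut inequality for graphs on `Fin n`
-/

namespace Pool.Agent.H7.OG

open Finset

theorem adj_one {n : ℕ} (G : SimpleGraph (Fin n)) {i j : ℕ} (hi : i < n) (hj : j < n) :
    adj G i j = 1 ↔ G.Adj ⟨i, hi⟩ ⟨j, hj⟩ := by
  classical
  have e := adj_fin G ⟨i, hi⟩ ⟨j, hj⟩
  simp only at e
  rw [e]
  by_cases h : G.Adj ⟨i, hi⟩ ⟨j, hj⟩ <;> simp [h]

theorem adj_zero {n : ℕ} (G : SimpleGraph (Fin n)) {i j : ℕ} (hi : i < n) (hj : j < n) :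
    adj G i j = 0 ↔ ¬ G.Adj ⟨i, hi⟩ ⟨j, hj⟩ := by
  rw [← adj_one G hi hj]
  rcases adj_01 G i j with h | h <;> simp [h]

/-- Sums over sorted triples. -/
theorem sorted_sum (n m : ℕ) (hm : m ≤ n) (f : ℕ → ℕ → ℕ → ℤ) :
    ∑ z ∈ range m, ∑ y ∈ range z, ∑ x ∈ range y, f x y z
      = ∑ x : Fin n, ∑ y : Fin n, ∑ z : Fin n,
        if x < y ∧ y < z ∧ z.val < m then f x y z else 0 := by
  have h1 : ∑ z ∈ range m, ∑ y ∈ range z, ∑ x ∈ range y, f x y z
      = ∑ z ∈ range n, ∑ y ∈ range n, ∑ x ∈ range n,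
        if x < y ∧ y < z ∧ z < m then f x y z else 0 := by
    have a1 : ∀ z ∈ range m, ∑ y ∈ range z, ∑ x ∈ range y, f x y z
        = ∑ y ∈ range n, ∑ x ∈ range n, if x < y ∧ y < z ∧ z < m then f x y z else 0 := by
      intro z hz
      have hz' := mem_range.1 hz
      have a2 : ∀ y ∈ range z, ∑ x ∈ range y, f x y z
          = ∑ x ∈ range n, if x < y ∧ y < z ∧ z < m then f x y z else 0 := by
        intro y hy
        have hy' := mem_range.1 hy
        have : ∑ x ∈ range y, f x y z
            = ∑ x ∈ range y, if x < y ∧ y < z ∧ z < m then f x y z else 0 := by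
          refine sum_congr rfl fun x hx => ?_
          rw [if_pos ⟨mem_range.1 hx, hy', hz'⟩]
        rw [this]
        apply sum_subset
        · intro x hx; exact mem_range.2 (by have := mem_range.1 hx; omega)
        · intro x _ hx
          rw [if_neg]
          intro h
          exact hx (mem_range.2 h.1)
      rw [sum_congr rfl a2]
      apply sum_subset
      · intro x hx; exact mem_range.2 (by have := mem_range.1 hx; omega)
      · intro y _ hy
        refine sum_eq_zero fun x _ => ?_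
        rw [if_neg]
        intro h
        exact hy (mem_range.2 h.2.1)
    rw [sum_congr rfl a1]
    apply sum_subset
    · intro x hx; exact mem_range.2 (by have := mem_range.1 hx; omega)
    · intro z _ hz
      refine sum_eq_zero fun y _ => sum_eq_zero fun x _ => ?_
      rw [if_neg]
      intro h
      exact hz (mem_range.2 h.2.2)
  rw [h1, sum_range]
  have h2 : ∀ z : Fin n, ∑ y ∈ range n, ∑ x ∈ range n,
        (if x < y ∧ y < z.val ∧ z.val < m then f x y z else 0)
      = ∑ x : Fin n, ∑ y : Fin n, if x < y ∧ y < z ∧ z.val < m then f x y z else 0 := by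
    intro z
    rw [sum_comm, sum_range]
    refine sum_congr rfl fun x _ => ?_
    rw [sum_range]
    rfl
  rw [sum_congr rfl fun z _ => h2 z, sum_comm]
  refine sum_congr rfl fun x _ => ?_
  rw [sum_comm]

theorem bal_eq {n : ℕ} (G : SimpleGraph (Fin n)) (m : ℕ) (hm : m ≤ n) :
    bal m (adj G) = upper G m - lower G m - triangles G m := by
  classical
  unfold bal
  rw [sorted_sum n m hm (fun x y z => (1 - adj G x y) * (1 - adj G x z) * adj G y z
      - adj G x y * (1 - adj G x z) * (1 - adj G y z)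
      - (1 - adj G x y) * adj G x z * (1 - adj G y z) - adj G x y * adj G x z * adj G y z)]
  unfold upper lower triangles
  rw [card_filter, card_filter, card_filter]
  push_cast
  rw [← sum_sub_distrib, ← sum_sub_distrib, Fintype.sum_prod_type]
  refine sum_congr rfl fun x _ => ?_
  rw [Fintype.sum_prod_type]
  refine sum_congr rfl fun y _ => sum_congr rfl fun z _ => ?_
  simp only [adj_fin]
  by_cases h : x < y ∧ y < z ∧ z.val < m
  · obtain ⟨h1, h2, h3⟩ := h
    by_cases g1 : G.Adj x y <;> by_cases g2 : G.Adj x z <;> by_cases g3 : G.Adj y z <;>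
      simp [h1, h2, h3, g1, g2, g3]
  · rw [if_neg h, if_neg, if_neg, if_neg]
    · norm_num
    · intro h'; exact h ⟨h'.1, h'.2.1, h'.2.2.1⟩
    · intro h'; exact h ⟨h'.1, h'.2.1, h'.2.2.1⟩
    · intro h'; exact h ⟨h'.1, h'.2.1, h'.2.2.1⟩

theorem edges_eq {n : ℕ} (G : SimpleGraph (Fin n)) (m : ℕ) (hm : m ≤ n) :
    ∑ z ∈ range m, ∑ y ∈ range z, adj G y z = edges G m := by
  classical
  have h1 : ∑ z ∈ range m, ∑ y ∈ range z, adj G y z
      = ∑ z ∈ range n, ∑ y ∈ range n, if y < z ∧ z < m then adj G y z else 0 := by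
    have a1 : ∀ z ∈ range m, ∑ y ∈ range z, adj G y z
        = ∑ y ∈ range n, if y < z ∧ z < m then adj G y z else 0 := by
      intro z hz
      have hz' := mem_range.1 hz
      have : ∑ y ∈ range z, adj G y z = ∑ y ∈ range z, if y < z ∧ z < m then adj G y z else 0 := by
        refine sum_congr rfl fun y hy => ?_
        rw [if_pos ⟨mem_range.1 hy, hz'⟩]
      rw [this]
      apply sum_subset
      · intro x hx; exact mem_range.2 (by have := mem_range.1 hx; omega)
      · intro y _ hy
        rw [if_neg]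
        intro h
        exact hy (mem_range.2 h.1)
    rw [sum_congr rfl a1]
    apply sum_subset
    · intro x hx; exact mem_range.2 (by have := mem_range.1 hx; omega)
    · intro z _ hz
      refine sum_eq_zero fun y _ => ?_
      rw [if_neg]
      intro h
      exact hz (mem_range.2 h.2)
  rw [h1]
  unfold edges
  rw [card_filter]
  push_cast
  rw [Fintype.sum_prod_type, sum_comm, sum_range]
  refine sum_congr rfl fun y _ => ?_
  rw [sum_range]
  refine sum_congr rfl fun z _ => ?_
  simp only [Fin.lt_def]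
  rw [adj_fin]
  by_cases g : G.Adj y z <;> by_cases h1 : y.val < z.val <;> by_cases h2 : z.val < m <;>
    simp [g, h1, h2]

/-- **The cut inequality.** -/
theorem cut_inequality {n : ℕ} (G : SimpleGraph (Fin n)) (m : ℕ) (hm : m ≤ n) (M : ℤ)
    (hM : (n : ℤ) ≤ m + M + 2) :
    2 * ((triples G).card : ℤ) ≤ m * M * (M + 1) + (n - m) * (m - M) * (m - M - 1)
      + m * (n - m) * (n - m - 1) + (upper G m - lower G m - triangles G m)
      - (2 * M - m + 2) * edges G m := by
  have h1 := bal_eq G m hm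
  have h2 := edges_eq G m hm
  obtain ⟨c, rfl⟩ : ∃ c, n = m + c := ⟨n - m, by omega⟩
  have hc : ((m + c : ℕ) : ℤ) - m = c := by push_cast; ring
  have h3 := core_gen m c M (adj G) (adj_symm G) (adj_01 G) (by push_cast at hM; linarith)
  rw [h1, h2] at h3
  rw [card_triples, hc]
  linarith

theorem two_choose (k : ℕ) : (2 * (k.choose 2 : ℕ) : ℤ) = k * (k - 1) := by
  induction k with
  | zero => simp
  | succ k ih =>
    rw [Nat.choose_succ_succ' k 1, Nat.choose_one_right]
    push_cast
    linarith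

theorem two_turan (n k : ℕ) :
    (n = 3 * k → (2 * (turan n : ℕ) : ℤ) = k ^ 2 * (5 * k - 3)) ∧
    (n = 3 * k + 1 → (2 * (turan n : ℕ) : ℤ) = k * (5 * k ^ 2 + 2 * k - 1)) ∧
    (n = 3 * k + 2 → (2 * (turan n : ℕ) : ℤ) = k * (k + 1) * (5 * k + 2)) := by
  have e : (2 * (turan n : ℕ) : ℤ) = ((n / 3 : ℕ) : ℤ) * ((n / 3 : ℕ) - 1) * ((n + 1) / 3 : ℕ)
      + ((n + 1) / 3 : ℕ) * (((n + 1) / 3 : ℕ) - 1) * ((n + 2) / 3 : ℕ)
      + ((n + 2) / 3 : ℕ) * (((n + 2) / 3 : ℕ) - 1) * (n / 3 : ℕ)
      + 2 * (n / 3 : ℕ) * ((n + 1) / 3 : ℕ) * ((n + 2) / 3 : ℕ) := by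
    unfold turan
    have h1 := two_choose (n / 3)
    have h2 := two_choose ((n + 1) / 3)
    have h3 := two_choose ((n + 2) / 3)
    push_cast at h1 h2 h3 ⊢
    linear_combination ((n + 1) / 3 : ℤ) * h1 + ((n + 2) / 3 : ℤ) * h2 + (n / 3 : ℤ) * h3
  rw [e]
  refine ⟨fun hk => ?_, fun hk => ?_, fun hk => ?_⟩
  · have a1 : n / 3 = k := by omega
    have a2 : (n + 1) / 3 = k := by omega
    have a3 : (n + 2) / 3 = k := by omega
    rw [a1, a2, a3]; ring
  · have a1 : n / 3 = k := by omega
    have a2 : (n + 1) / 3 = k := by omega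
    have a3 : (n + 2) / 3 = k + 1 := by omega
    rw [a1, a2, a3]; push_cast; ring
  · have a1 : n / 3 = k := by omega
    have a2 : (n + 1) / 3 = k + 1 := by omega
    have a3 : (n + 2) / 3 = k + 1 := by omega
    rw [a1, a2, a3]; push_cast; ring

/-- The cut inequality at `cut n`. -/
theorem cut_two_thirds {n : ℕ} (G : SimpleGraph (Fin n)) :
    (2 * ((triples G).card : ℤ) ≤ 2 * turan n + (if n % 3 = 1 then 2 * (n / 3 : ℕ) else 0)
      + (upper G (cut n) - lower G (cut n) - triangles G (cut n))) ∧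
    (54 * ((triples G).card : ℤ) ≤ 5 * n ^ 3
      + 27 * (upper G (cut n) - lower G (cut n) - triangles G (cut n))) := by
  obtain ⟨k, hk⟩ : ∃ k, n = 3 * k ∨ n = 3 * k + 1 ∨ n = 3 * k + 2 := ⟨n / 3, by omega⟩
  have hcut : cut n = 2 * ((n + 1) / 3) := rfl
  rcases hk with hk | hk | hk
  · have hm : cut n = 2 * k := by omega
    have h := cut_inequality G (cut n) (by omega) (k - 1) (by rw [hm, hk]; push_cast; linarith)
    have ht := (two_turan n k).1 hk
    have hn : (n : ℤ) = 3 * k := by exact_mod_cast hk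
    have hmz : ((cut n : ℕ) : ℤ) = 2 * k := by exact_mod_cast hm
    rw [if_neg (by omega), ht]
    rw [hn, hmz] at h
    constructor
    · linarith
    · rw [hn]
      nlinarith [h, sq_nonneg (k : ℤ)]
  · have hm : cut n = 2 * k := by omega
    have h := cut_inequality G (cut n) (by omega) (k - 1) (by rw [hm, hk]; push_cast; linarith)
    have ht := (two_turan n k).2.1 hk
    have hn : (n : ℤ) = 3 * k + 1 := by exact_mod_cast hk
    have hmz : ((cut n : ℕ) : ℤ) = 2 * k := by exact_mod_cast hm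
    rw [if_pos (by omega), ht, show n / 3 = k by omega]
    rw [hn, hmz] at h
    have hk0 : (0 : ℤ) ≤ k := by positivity
    constructor
    · push_cast; linarith
    · rw [hn]
      nlinarith [h, sq_nonneg (k : ℤ)]
  · have hm : cut n = 2 * k + 2 := by omega
    have h := cut_inequality G (cut n) (by omega) k (by rw [hm, hk]; push_cast; linarith)
    have ht := (two_turan n k).2.2 hk
    have hn : (n : ℤ) = 3 * k + 2 := by exact_mod_cast hk
    have hmz : ((cut n : ℕ) : ℤ) = 2 * k + 2 := by exact_mod_cast hm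
    rw [if_neg (by omega), ht]
    rw [hn, hmz] at h
    have hk0 : (0 : ℤ) ≤ k := by positivity
    constructor
    · linarith
    · rw [hn]
      nlinarith [h, sq_nonneg (k : ℤ)]

end Pool.Agent.H7.OG
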