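import Pool.Agent.H7.OG.Main

/-!
# Ordered graphs and `K_4^3`-free 3-graphs: the cut inequality
-/

namespace Pool.Agent.H7.OG

open Finset

/-- The number of neighbours `v` of `u` with `u < v < m`. -/
def dp (m : ℕ) (a : ℕ → ℕ → ℤ) (u : ℕ) : ℤ := ∑ v ∈ range m, if u < v then a u v else 0

theorem dp_succ (m : ℕ) (a : ℕ → ℕ → ℤ) (u : ℕ) (hu : u < m) :
    dp (m + 1) a u = dp m a u + a u m := by
  unfold dp
  rw [sum_range_succ, if_pos hu]

theorem dp_self (m : ℕ) (a : ℕ → ℕ → ℤ) : dp (m + 1) a m = 0 := by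
  unfold dp
  refine sum_eq_zero fun v hv => ?_
  rw [if_neg]
  have := mem_range.1 hv
  omega

theorem swap_dp (m : ℕ) (a : ℕ → ℕ → ℤ) (φ : ℕ → ℤ) :
    ∑ x ∈ range m, φ x * dp m a x = ∑ y ∈ range m, ∑ x ∈ range y, φ x * a x y := by
  induction m with
  | zero => simp
  | succ m ih =>
    rw [sum_range_succ, dp_self, mul_zero, add_zero, sum_range_succ, ← ih, ← sum_add_distrib]
    refine sum_congr rfl fun x hx => ?_
    rw [dp_succ m a x (mem_range.1 hx)]; ring

theorem sq_dp (m : ℕ) (a : ℕ → ℕ → ℤ) (ha : ∀ i j, a i j = 0 ∨ a i j = 1) :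
    ∑ u ∈ range m, (dp m a u ^ 2 - dp m a u)
      = 2 * ∑ z ∈ range m, ∑ y ∈ range z, ∑ x ∈ range y, a x y * a x z := by
  induction m with
  | zero => simp
  | succ m ih =>
    have h1 : ∑ u ∈ range m, (dp (m + 1) a u ^ 2 - dp (m + 1) a u)
        = ∑ u ∈ range m, (dp m a u ^ 2 - dp m a u) + 2 * ∑ u ∈ range m, a u m * dp m a u := by
      rw [mul_sum, ← sum_add_distrib]
      refine sum_congr rfl fun u hu => ?_
      rw [dp_succ m a u (mem_range.1 hu)]
      have : a u m * a u m = a u m := by rcases ha u m with h | h <;> simp [h]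
      linear_combination this
    have h2 : ∑ y ∈ range m, ∑ x ∈ range y, a x y * a x m
        = ∑ y ∈ range m, ∑ x ∈ range y, a x m * a x y :=
      sum_congr rfl fun y _ => sum_congr rfl fun x _ => by ring
    rw [sum_range_succ, dp_self, h1, ih, swap_dp m a (fun u => a u m), sum_range_succ, h2]
    ring

/-- The target value of the number of neighbours of `u` in the second part. -/
def tg (m : ℕ) (a : ℕ → ℕ → ℤ) (M : ℤ) (u : ℕ) : ℤ := M - dp m a u

theorem per_vertex_gen (m : ℕ) (a : ℕ → ℕ → ℤ) (ha : ∀ i j, a i j = 0 ∨ a i j = 1) (E : ℕ → ℤ)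
    (hE : ∀ i, E i = 0 ∨ E i = 1) (M : ℤ) :
    2 * (∑ y ∈ range m, E y * (y - tg m a M y)
        - ∑ y ∈ range m, ∑ x ∈ range y, a x y * (E x * E y))
      ≤ (∑ y ∈ range m, E y) * (2 * (m - M) - 1 - ∑ y ∈ range m, E y) := by
  have e1 : ∑ y ∈ range m, E y * (y - tg m a M y)
      = ∑ y ∈ range m, E y * (y - M) + ∑ y ∈ range m, ∑ x ∈ range y, E x * a x y := by
    rw [← swap_dp, ← sum_add_distrib]
    refine sum_congr rfl fun y _ => ?_
    unfold tg; ring
  have e2 : ∑ y ∈ range m, ∑ x ∈ range y, E x * a x y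
        - ∑ y ∈ range m, ∑ x ∈ range y, a x y * (E x * E y)
      ≤ ∑ y ∈ range m, ∑ x ∈ range y, E x - ∑ y ∈ range m, ∑ x ∈ range y, E x * E y := by
    simp only [← sum_sub_distrib]
    refine sum_le_sum fun y _ => sum_le_sum fun x _ => ?_
    rcases ha x y with h | h <;> rcases hE x with h1 | h1 <;> rcases hE y with h2 | h2 <;>
      rw [h, h1, h2] <;> norm_num
  have e3 : ∑ y ∈ range m, ∑ x ∈ range y, E x = ∑ y ∈ range m, E y * (m - (y + 1)) := by
    have := swap_pairs m E (fun _ => 1)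
    simp only [mul_one, sum_const, card_range, nsmul_eq_mul, Nat.cast_add, Nat.cast_one] at this
    exact this
  have e4 := pair_prod m E (fun i => by rcases hE i with h | h <;> simp [h])
  have e5 : ∑ y ∈ range m, E y * (y - M) + ∑ y ∈ range m, E y * (m - (y + 1))
      = (m - M - 1) * ∑ y ∈ range m, E y := by
    rw [mul_sum, ← sum_add_distrib]
    exact sum_congr rfl fun y _ => by ring
  rw [e1]
  rw [e3] at e2
  nlinarith [e2, e4, e5]

/-- The number of the triples `x < y < z < m` such that `y z` is the only edge, minus the numbers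
of those such that `x y` or `x z` is the only edge, minus the number of triangles. -/
def bal (m : ℕ) (a : ℕ → ℕ → ℤ) : ℤ :=
  ∑ z ∈ range m, ∑ y ∈ range z, ∑ x ∈ range y,
    ((1 - a x y) * (1 - a x z) * a y z - a x y * (1 - a x z) * (1 - a y z)
      - (1 - a x y) * a x z * (1 - a y z) - a x y * a x z * a y z)

theorem first_gen (m : ℕ) (a : ℕ → ℕ → ℤ) (ha : ∀ i j, a i j = 0 ∨ a i j = 1) (M : ℤ) :
    2 * ∑ z ∈ range m, ∑ y ∈ range z, a y z * ∑ x ∈ range y, (1 - a x y * a x z)
        + ∑ u ∈ range m, tg m a M u * (tg m a M u + 1)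
      = m * M * (M + 1) + bal m a
        - (2 * M - m + 2) * ∑ z ∈ range m, ∑ y ∈ range z, a y z := by
  have e1 : ∑ u ∈ range m, tg m a M u * (tg m a M u + 1)
      = m * M * (M + 1) - 2 * M * (∑ u ∈ range m, 1 * dp m a u)
        + ∑ u ∈ range m, (dp m a u ^ 2 - dp m a u) := by
    have : (m * M * (M + 1) : ℤ) = ∑ u ∈ range m, M * (M + 1) := by simp; ring
    rw [this, mul_sum, ← sum_sub_distrib, ← sum_add_distrib]
    refine sum_congr rfl fun u _ => ?_
    unfold tg; ring
  have e2 := triple_one m a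
  have e3 : ∑ z ∈ range m, ∑ y ∈ range z, a y z * ∑ x ∈ range y, (1 - a x y * a x z)
      = ∑ z ∈ range m, ∑ y ∈ range z, ∑ x ∈ range y, a y z * (1 - a x y * a x z) :=
    sum_congr rfl fun z _ => sum_congr rfl fun y _ => by rw [mul_sum]
  have e4 : bal m a = 2 * ∑ z ∈ range m, ∑ y ∈ range z, ∑ x ∈ range y, a x y * a x z
      + 2 * ∑ z ∈ range m, ∑ y ∈ range z, ∑ x ∈ range y, a y z * (1 - a x y * a x z)
      - ∑ l ∈ range m, ∑ j ∈ range l, ∑ i ∈ range j, (a i j + a i l + a j l) := by
    unfold bal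
    simp only [mul_sum, ← sum_add_distrib, ← sum_sub_distrib]
    refine sum_congr rfl fun z _ => sum_congr rfl fun y _ => sum_congr rfl fun x _ => ?_
    ring
  have e5 : ∑ u ∈ range m, 1 * dp m a u = ∑ z ∈ range m, ∑ y ∈ range z, a y z := by
    rw [swap_dp m a (fun _ => 1)]
    exact sum_congr rfl fun z _ => sum_congr rfl fun y _ => by ring
  rw [e1, sq_dp m a ha, e5, e4, e2, e3]
  ring

/-- **The cut inequality** in terms of adjacency functions. -/
theorem core_gen (m c : ℕ) (M : ℤ) (a : ℕ → ℕ → ℤ) (hs : ∀ i j, a i j = a j i)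
    (ha : ∀ i j, a i j = 0 ∨ a i j = 1) (hM : (c : ℤ) - 2 ≤ M) :
    2 * cnt (m + c) a ≤ m * M * (M + 1) + bal m a
      - (2 * M - m + 2) * ∑ z ∈ range m, ∑ y ∈ range z, a y z
      + c * (m - M) * (m - M - 1) + m * c * (c - 1) := by
  obtain ⟨h, hh, h2⟩ := second_part m c a hs ha
  have e0 := cnt_split m c a
  have e1 := first_gen m a ha M
  -- the terms of the second part and the first one
  have e3 : ∀ l ∈ range c, ∑ y ∈ range m, a y (m + l) *
        ∑ x ∈ range y, (1 - a x y * a x (m + l))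
      = ∑ y ∈ range m, a y (m + l) * y
        - ∑ y ∈ range m, ∑ x ∈ range y, a x y * (a x (m + l) * a y (m + l)) := by
    intro l _
    rw [← sum_sub_distrib]
    refine sum_congr rfl fun y hy => ?_
    rw [sum_sub_distrib, mul_sub, sum_const, card_range, mul_sum]
    have : ∑ x ∈ range y, a y (m + l) * (a x y * a x (m + l))
        = ∑ x ∈ range y, a x y * (a x (m + l) * a y (m + l)) :=
      sum_congr rfl fun x _ => by ring
    rw [this]
    simp
  have e4 := sum_congr rfl e3
  have e5 : ∀ l ∈ range c, 2 * (∑ y ∈ range m, a y (m + l) * y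
        - ∑ y ∈ range m, ∑ x ∈ range y, a x y * (a x (m + l) * a y (m + l)))
      ≤ 2 * ∑ y ∈ range m, a y (m + l) * tg m a M y
        + (∑ y ∈ range m, a y (m + l)) * (2 * (m - M) - 1 - ∑ y ∈ range m, a y (m + l)) := by
    intro l _
    have h1 := per_vertex_gen m a ha (fun y => a y (m + l)) (fun i => ha _ _) M
    have h3 : ∑ y ∈ range m, a y (m + l) * (y - tg m a M y)
        = ∑ y ∈ range m, a y (m + l) * y - ∑ y ∈ range m, a y (m + l) * tg m a M y := by
      rw [← sum_sub_distrib]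
      exact sum_congr rfl fun y _ => by ring
    rw [h3] at h1
    linarith
  have e6 := sum_le_sum e5
  rw [← mul_sum, sum_add_distrib, ← mul_sum] at e6
  have e7 : ∑ l ∈ range c, ∑ y ∈ range m, a y (m + l) * tg m a M y
      = ∑ u ∈ range m, (∑ l ∈ range c, a u (m + l)) * tg m a M u := by
    rw [sum_comm]
    exact sum_congr rfl fun y _ => by rw [sum_mul]
  rw [e7] at e6
  -- pointwise inequality for the vertices of the first part
  have e8 : ∑ u ∈ range m, (2 * ((∑ l ∈ range c, a u (m + l)) * tg m a M u)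
        - ((∑ l ∈ range c, a u (m + l)) ^ 2 - ∑ l ∈ range c, a u (m + l)))
      ≤ ∑ u ∈ range m, tg m a M u * (tg m a M u + 1) := by
    refine sum_le_sum fun u _ => ?_
    generalize (∑ l ∈ range c, a u (m + l)) = τ
    generalize tg m a M u = σ
    have : 0 ≤ (τ - σ) * (τ - σ - 1) := by
      rcases le_or_gt (τ - σ) 0 with h | h
      · exact mul_nonneg_of_nonpos_of_nonpos h (by linarith)
      · exact mul_nonneg h.le (by linarith [Int.add_one_le_iff.2 h])
    nlinarith
  rw [sum_sub_distrib, ← mul_sum] at e8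
  -- pointwise inequality for the vertices of the second part
  set κ : ℤ := m - M with hκ
  have hκ' : κ ≤ m - c + 2 := by linarith
  have e9 : ∑ t ∈ range c, (2 * h t * (∑ u ∈ range m, a u (m + t))
            + 2 * (c - 2 - m) * h t - (h t ^ 2 - h t))
        + 2 * ∑ t ∈ range c, (∑ y ∈ range m, a y (m + t)) *
            (2 * κ - 1 - ∑ y ∈ range m, a y (m + t))
      ≤ ∑ t ∈ range c, 2 * κ * (κ - 1) := by
    rw [mul_sum, ← sum_add_distrib]
    refine sum_le_sum fun t _ => ?_
    have ht := hh t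
    generalize h t = g at ht ⊢
    generalize (∑ u ∈ range m, a u (m + t)) = e
    have h1 : 0 ≤ 2 * (m - c + 2 - κ) * g := mul_nonneg (by linarith) ht
    have h3 : 0 ≤ 2 * (e - κ) ^ 2 - 2 * (e - κ) * (g - 1) + g * (g - 1) := by
      rcases ht.eq_or_lt with h0 | h0
      · rw [← h0]
        have : 0 ≤ (e - κ) * (e - κ + 1) := by
          rcases le_or_gt 0 (e - κ) with h | h
          · exact mul_nonneg h (by linarith)
          · exact mul_nonneg_of_nonpos_of_nonpos h.le (by linarith [Int.add_one_le_iff.2 h])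
        nlinarith
      · nlinarith [sq_nonneg (e - κ), sq_nonneg (e - κ - (g - 1)), Int.add_one_le_iff.2 h0]
    nlinarith
  have e10 : ∑ t ∈ range c, 2 * κ * (κ - 1) = 2 * c * κ * (κ - 1) := by
    rw [sum_const, card_range]
    simp only [nsmul_eq_mul]
    ring
  rw [e4] at e0
  rw [e10] at e9
  rw [e0]
  linarith [e6, e8, e9, h2, e1]

end Pool.Agent.H7.OG
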