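import Pool.Agent.H7.OG.Core

/-!
# Sums over sorted pairs, triples and quadruples
-/

namespace Pool.Agent.H7.OG

open Finset

/-- Sum over `a < b < k`. -/
def S2 (k : ℕ) (φ : ℕ → ℕ → ℤ) : ℤ := ∑ b ∈ range k, ∑ a ∈ range b, φ a b

/-- Sum over `a < b < c < k`. -/
def S3 (k : ℕ) (φ : ℕ → ℕ → ℕ → ℤ) : ℤ := ∑ c ∈ range k, S2 c (fun a b => φ a b c)

/-- Sum over `a < b < c < d < k`. -/
def S4 (k : ℕ) (φ : ℕ → ℕ → ℕ → ℕ → ℤ) : ℤ := ∑ d ∈ range k, S3 d (fun a b c => φ a b c d)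

theorem S2_succ (k : ℕ) (φ : ℕ → ℕ → ℤ) : S2 (k + 1) φ = S2 k φ + ∑ a ∈ range k, φ a k :=
  sum_range_succ _ _

theorem S3_succ (k : ℕ) (φ : ℕ → ℕ → ℕ → ℤ) :
    S3 (k + 1) φ = S3 k φ + S2 k (fun a b => φ a b k) := sum_range_succ _ _

theorem S4_succ (k : ℕ) (φ : ℕ → ℕ → ℕ → ℕ → ℤ) :
    S4 (k + 1) φ = S4 k φ + S3 k (fun a b c => φ a b c k) := sum_range_succ _ _

theorem S2_add (k : ℕ) (φ χ : ℕ → ℕ → ℤ) :
    S2 k (fun a b => φ a b + χ a b) = S2 k φ + S2 k χ := by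
  unfold S2; simp only [sum_add_distrib]

theorem S3_add (k : ℕ) (φ χ : ℕ → ℕ → ℕ → ℤ) :
    S3 k (fun a b c => φ a b c + χ a b c) = S3 k φ + S3 k χ := by
  unfold S3; simp only [S2_add, sum_add_distrib]

theorem S4_add (k : ℕ) (φ χ : ℕ → ℕ → ℕ → ℕ → ℤ) :
    S4 k (fun a b c d => φ a b c d + χ a b c d) = S4 k φ + S4 k χ := by
  unfold S4; simp only [S3_add, sum_add_distrib]

theorem S2_mul (k : ℕ) (x : ℤ) (φ : ℕ → ℕ → ℤ) : S2 k (fun a b => x * φ a b) = x * S2 k φ := by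
  unfold S2; simp only [mul_sum]

theorem S3_mul (k : ℕ) (x : ℤ) (φ : ℕ → ℕ → ℕ → ℤ) :
    S3 k (fun a b c => x * φ a b c) = x * S3 k φ := by
  unfold S3; simp only [S2_mul, mul_sum]

theorem S4_mul (k : ℕ) (x : ℤ) (φ : ℕ → ℕ → ℕ → ℕ → ℤ) :
    S4 k (fun a b c d => x * φ a b c d) = x * S4 k φ := by
  unfold S4; simp only [S3_mul, mul_sum]

theorem S2_congr {k : ℕ} {φ χ : ℕ → ℕ → ℤ} (h : ∀ a b, a < b → b < k → φ a b = χ a b) :
    S2 k φ = S2 k χ :=
  sum_congr rfl fun b hb => sum_congr rfl fun a ha => h a b (mem_range.1 ha) (mem_range.1 hb)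

theorem S3_congr {k : ℕ} {φ χ : ℕ → ℕ → ℕ → ℤ}
    (h : ∀ a b c, a < b → b < c → c < k → φ a b c = χ a b c) : S3 k φ = S3 k χ :=
  sum_congr rfl fun c hc => S2_congr fun a b ha hb => h a b c ha hb (mem_range.1 hc)

theorem S4_congr {k : ℕ} {φ χ : ℕ → ℕ → ℕ → ℕ → ℤ}
    (h : ∀ a b c d, a < b → b < c → c < d → d < k → φ a b c d = χ a b c d) : S4 k φ = S4 k χ :=
  sum_congr rfl fun d hd => S3_congr fun a b c ha hb hc => h a b c d ha hb hc (mem_range.1 hd)

theorem S2_le {k : ℕ} {φ χ : ℕ → ℕ → ℤ} (h : ∀ a b, a < b → b < k → φ a b ≤ χ a b) :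
    S2 k φ ≤ S2 k χ :=
  sum_le_sum fun b hb => sum_le_sum fun a ha => h a b (mem_range.1 ha) (mem_range.1 hb)

theorem S3_le {k : ℕ} {φ χ : ℕ → ℕ → ℕ → ℤ}
    (h : ∀ a b c, a < b → b < c → c < k → φ a b c ≤ χ a b c) : S3 k φ ≤ S3 k χ :=
  sum_le_sum fun c hc => S2_le fun a b ha hb => h a b c ha hb (mem_range.1 hc)

theorem S4_le {k : ℕ} {φ χ : ℕ → ℕ → ℕ → ℕ → ℤ}
    (h : ∀ a b c d, a < b → b < c → c < d → d < k → φ a b c d ≤ χ a b c d) : S4 k φ ≤ S4 k χ :=
  sum_le_sum fun d hd => S3_le fun a b c ha hb hc => h a b c d ha hb hc (mem_range.1 hd)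

/-- All pairs. -/
theorem pairs_all (k : ℕ) (ω : ℕ → ℕ → ℤ) (h : ∀ a, ω a a = 0) :
    ∑ a ∈ range k, ∑ c ∈ range k, ω a c = S2 k (fun a b => ω a b + ω b a) := by
  induction k with
  | zero => simp [S2]
  | succ k ih =>
    have h1 : ∑ a ∈ range k, ∑ c ∈ range (k + 1), ω a c
        = ∑ a ∈ range k, ∑ c ∈ range k, ω a c + ∑ a ∈ range k, ω a k := by
      rw [← sum_add_distrib]; exact sum_congr rfl fun a _ => sum_range_succ _ _
    rw [sum_range_succ, h1, ih, sum_range_succ, h, S2_succ, sum_add_distrib]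
    ring

/-- A pair and a third number. -/
theorem pairs_one (k : ℕ) (χ : ℕ → ℕ → ℕ → ℤ) (h1 : ∀ a b, χ a b a = 0) (h2 : ∀ a b, χ a b b = 0) :
    ∑ c ∈ range k, S2 k (fun a b => χ a b c)
      = S3 k (fun a b c => χ a b c + χ a c b + χ b c a) := by
  induction k with
  | zero => simp [S3]
  | succ k ih =>
    have e1 : ∑ c ∈ range k, S2 (k + 1) (fun a b => χ a b c)
        = ∑ c ∈ range k, S2 k (fun a b => χ a b c) + ∑ c ∈ range k, ∑ a ∈ range k, χ a k c := by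
      rw [← sum_add_distrib]; exact sum_congr rfl fun c _ => S2_succ _ _
    have e2 : ∑ a ∈ range k, χ a k k = 0 := sum_eq_zero fun a _ => h2 a k
    have e3 : ∑ c ∈ range k, ∑ a ∈ range k, χ a k c
        = S2 k (fun a b => χ b k a + χ a k b) :=
      pairs_all k (fun c a => χ a k c) (fun a => h1 a k)
    rw [sum_range_succ, e1, ih, S2_succ, e2, e3, S3_succ]
    have e4 : S2 k (fun a b => χ a b k + χ a k b + χ b k a)
        = S2 k (fun a b => χ a b k) + S2 k (fun a b => χ b k a + χ a k b) := by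
      rw [← S2_add]
      exact S2_congr fun a b _ _ => by ring
    rw [e4]; ring

theorem S2_sum (k n : ℕ) (χ : ℕ → ℕ → ℕ → ℤ) :
    S2 k (fun a b => ∑ c ∈ range n, χ a b c) = ∑ c ∈ range n, S2 k (fun a b => χ a b c) := by
  unfold S2
  rw [sum_comm]
  refine sum_congr rfl fun b _ => ?_
  rw [sum_comm]

/-- Two disjoint pairs. -/
theorem pairs_two (k : ℕ) (ψ : ℕ → ℕ → ℕ → ℕ → ℤ)
    (h1 : ∀ a b d, ψ a b a d = 0) (h2 : ∀ a b d, ψ a b b d = 0)
    (h3 : ∀ a b c, ψ a b c a = 0) (h4 : ∀ a b c, ψ a b c b = 0) :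
    S2 k (fun a b => S2 k (fun c d => ψ a b c d))
      = S4 k (fun a b c d => ψ a b c d + ψ a c b d + ψ a d b c + ψ b c a d + ψ b d a c
          + ψ c d a b) := by
  induction k with
  | zero => simp [S4, S2]
  | succ k ih =>
    rw [S2_succ, S4_succ]
    have e1 : S2 k (fun a b => S2 (k + 1) (fun c d => ψ a b c d))
        = S2 k (fun a b => S2 k (fun c d => ψ a b c d))
          + ∑ c ∈ range k, S2 k (fun a b => ψ a b c k) := by
      rw [← S2_sum, ← S2_add]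
      exact S2_congr fun a b _ _ => S2_succ _ _
    have e2 : ∑ a ∈ range k, S2 (k + 1) (fun c d => ψ a k c d)
        = ∑ a ∈ range k, S2 k (fun c d => ψ a k c d) := by
      refine sum_congr rfl fun a _ => ?_
      rw [S2_succ]
      have : ∑ c ∈ range k, ψ a k c k = 0 := sum_eq_zero fun c _ => h4 a k c
      rw [this, add_zero]
    have e3 := pairs_one k (fun a b c => ψ a b c k) (fun a b => h1 a b k) (fun a b => h2 a b k)
    have e4 := pairs_one k (fun c d a => ψ a k c d) (fun c d => h1 c k d) (fun c d => h3 d k c)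
    rw [e1, e2, ih, e3, e4, add_assoc, ← S3_add]
    congr 1
    exact S3_congr fun a b c _ _ _ => by ring

theorem S3_pairs (k : ℕ) (φ : ℕ → ℕ → ℤ) :
    S3 k (fun a b c => φ a b + φ a c + φ b c) = ((k : ℤ) - 2) * S2 k φ := triple_one k φ

theorem S4_triples (k : ℕ) (φ : ℕ → ℕ → ℕ → ℤ) :
    S4 k (fun a b c d => φ b c d + φ a c d + φ a b d + φ a b c) = ((k : ℤ) - 3) * S3 k φ := by
  induction k with
  | zero => simp [S4, S3]
  | succ k ih =>
    rw [S4_succ, ih, S3_succ]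
    have e1 : S3 k (fun a b c => φ b c k + φ a c k + φ a b k + φ a b c)
        = S3 k (fun a b c => φ a b k + φ a c k + φ b c k) + S3 k φ := by
      rw [← S3_add]
      exact S3_congr fun a b c _ _ _ => by ring
    rw [e1, S3_pairs k (fun a b => φ a b k)]
    push_cast
    ring

theorem S2_const (k : ℕ) : 2 * S2 k (fun _ _ => 1) = k * ((k : ℤ) - 1) := by
  induction k with
  | zero => simp [S2]
  | succ k ih =>
    rw [S2_succ, mul_add, ih, sum_const, card_range]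
    push_cast
    simp only [nsmul_eq_mul]
    ring

theorem S4_const (k : ℕ) :
    24 * S4 k (fun _ _ _ _ => 1) = k * ((k : ℤ) - 1) * (k - 2) * (k - 3) := by
  have h1 := S4_triples k (fun _ _ _ => 1)
  have h2 := S3_pairs k (fun _ _ => 1)
  have h3 := S2_const k
  have e1 : S4 k (fun _ _ _ _ => (1 : ℤ) + 1 + 1 + 1) = 4 * S4 k (fun _ _ _ _ => 1) := by
    rw [← S4_mul]; rfl
  have e2 : S3 k (fun _ _ _ => (1 : ℤ) + 1 + 1) = 3 * S3 k (fun _ _ _ => 1) := by
    rw [← S3_mul]; rfl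
  rw [e1] at h1
  rw [e2] at h2
  linear_combination 6 * h1 + 2 * ((k : ℤ) - 3) * h2 + ((k : ℤ) - 3) * ((k : ℤ) - 2) * h3

theorem S2_prod (k : ℕ) (g : ℕ → ℤ) :
    2 * S2 k (fun c d => g c * g d) = (∑ i ∈ range k, g i) ^ 2 - ∑ i ∈ range k, g i ^ 2 := by
  induction k with
  | zero => simp [S2]
  | succ k ih =>
    rw [S2_succ, mul_add, ih, sum_range_succ, sum_range_succ, ← sum_mul]
    ring

/-- All triples. -/
theorem triples_all (k : ℕ) (ζ : ℕ → ℕ → ℕ → ℤ) (h1 : ∀ a b c, ζ a b c = ζ b a c)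
    (h2 : ∀ a b c, ζ a b c = ζ a c b) :
    ∑ a ∈ range k, ∑ b ∈ range k, ∑ c ∈ range k, ζ a b c
      = 6 * S3 k ζ + 3 * ∑ a ∈ range k, ∑ b ∈ range k, ζ a a b
        - 2 * ∑ a ∈ range k, ζ a a a := by
  have pa : ∀ k : ℕ, ∀ t : ℕ, ∑ a ∈ range k, ∑ b ∈ range k, ζ a b t
      = 2 * S2 k (fun a b => ζ a b t) + ∑ a ∈ range k, ζ a a t := by
    intro k t
    induction k with
    | zero => simp [S2]
    | succ k ih =>
      have e1 : ∑ a ∈ range k, ∑ b ∈ range (k + 1), ζ a b t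
          = ∑ a ∈ range k, ∑ b ∈ range k, ζ a b t + ∑ a ∈ range k, ζ a k t := by
        rw [← sum_add_distrib]; exact sum_congr rfl fun a _ => sum_range_succ _ _
      have e2 : ∑ b ∈ range k, ζ k b t = ∑ a ∈ range k, ζ a k t :=
        sum_congr rfl fun a _ => h1 _ _ _
      rw [sum_range_succ, e1, ih, sum_range_succ, e2, S2_succ, sum_range_succ]
      ring
  induction k with
  | zero => simp [S3]
  | succ k ih =>
    have e1 : ∑ a ∈ range (k + 1), ∑ b ∈ range (k + 1), ∑ c ∈ range (k + 1), ζ a b c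
        = ∑ a ∈ range (k + 1), ∑ b ∈ range (k + 1), ∑ c ∈ range k, ζ a b c
          + ∑ a ∈ range (k + 1), ∑ b ∈ range (k + 1), ζ a b k := by
      rw [← sum_add_distrib]
      refine sum_congr rfl fun a _ => ?_
      rw [← sum_add_distrib]
      exact sum_congr rfl fun b _ => sum_range_succ _ _
    have e2 : ∑ a ∈ range (k + 1), ∑ b ∈ range (k + 1), ∑ c ∈ range k, ζ a b c
        = ∑ a ∈ range (k + 1), ∑ b ∈ range k, ∑ c ∈ range k, ζ a b c
          + ∑ a ∈ range (k + 1), ∑ c ∈ range k, ζ a k c := by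
      rw [← sum_add_distrib]
      exact sum_congr rfl fun a _ => sum_range_succ _ _
    have e3 : ∑ a ∈ range (k + 1), ∑ b ∈ range k, ∑ c ∈ range k, ζ a b c
        = ∑ a ∈ range k, ∑ b ∈ range k, ∑ c ∈ range k, ζ a b c
          + ∑ b ∈ range k, ∑ c ∈ range k, ζ k b c := sum_range_succ _ _
    have e4 : ∑ b ∈ range k, ∑ c ∈ range k, ζ k b c = ∑ a ∈ range k, ∑ b ∈ range k, ζ a b k := by
      refine sum_congr rfl fun b _ => sum_congr rfl fun c _ => ?_
      rw [h1 k b c, h2 b k c]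
    have e5 : ∑ a ∈ range (k + 1), ∑ c ∈ range k, ζ a k c
        = ∑ a ∈ range k, ∑ b ∈ range k, ζ a b k + ∑ a ∈ range k, ζ a k k := by
      rw [sum_range_succ]
      congr 1
      · exact sum_congr rfl fun a _ => sum_congr rfl fun c _ => h2 a k c
      · refine sum_congr rfl fun a _ => ?_
        rw [h2 k k a, h1 k a k]
    have e6 : ∑ a ∈ range (k + 1), ∑ b ∈ range (k + 1), ζ a b k
        = ∑ a ∈ range k, ∑ b ∈ range k, ζ a b k + 2 * ∑ a ∈ range k, ζ a k k + ζ k k k := by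
      rw [sum_range_succ]
      have f1 : ∑ a ∈ range k, ∑ b ∈ range (k + 1), ζ a b k
          = ∑ a ∈ range k, ∑ b ∈ range k, ζ a b k + ∑ a ∈ range k, ζ a k k := by
        rw [← sum_add_distrib]; exact sum_congr rfl fun a _ => sum_range_succ _ _
      have f2 : ∑ b ∈ range k, ζ k b k = ∑ a ∈ range k, ζ a k k :=
        sum_congr rfl fun a _ => h1 _ _ _
      rw [f1, sum_range_succ, f2]
      ring
    have e7 : ∑ a ∈ range (k + 1), ∑ b ∈ range (k + 1), ζ a a b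
        = ∑ a ∈ range k, ∑ b ∈ range k, ζ a a b + ∑ a ∈ range k, ζ a a k
          + ∑ a ∈ range k, ζ a k k + ζ k k k := by
      rw [sum_range_succ]
      have f1 : ∑ a ∈ range k, ∑ b ∈ range (k + 1), ζ a a b
          = ∑ a ∈ range k, ∑ b ∈ range k, ζ a a b + ∑ a ∈ range k, ζ a a k := by
        rw [← sum_add_distrib]; exact sum_congr rfl fun a _ => sum_range_succ _ _
      have f2 : ∑ b ∈ range k, ζ k k b = ∑ a ∈ range k, ζ a k k :=
        sum_congr rfl fun a _ => by rw [h2 k k a, h1 k a k]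
      rw [f1, sum_range_succ, f2]
      ring
    rw [e1, e2, e3, e4, e5, e6, e7, ih, S3_succ, sum_range_succ, pa k k]
    ring

end Pool.Agent.H7.OG
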