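import Pool.Agent.H7.OG.Count
import Pool.Agent.H7.OG.Bip

/-!
# Turán's construction is the 3-graph of an ordered graph
-/

namespace Pool.Agent.H7.OG

open Finset

theorem gauss (p : ℕ) : 2 * ∑ x ∈ range p, (x : ℤ) = p * (p - 1) := by
  induction p with
  | zero => simp
  | succ p ih => rw [sum_range_succ, mul_add, ih]; push_cast; ring

/-- Turán's construction with classes of sizes `p`, `q`, `c` as an ordered graph. -/
def turanGraph (p q c : ℕ) : SimpleGraph (Fin (p + q + c)) where
  Adj u v := u ≠ v ∧ ((u.val < p ∧ p ≤ v.val ∧ v.val < p + q) ∨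
    (v.val < p ∧ p ≤ u.val ∧ u.val < p + q) ∨ (p ≤ u.val ∧ p + q ≤ v.val) ∨
    (p ≤ v.val ∧ p + q ≤ u.val))
  symm := ⟨fun u v h => ⟨h.1.symm, by tauto⟩⟩
  loopless := ⟨fun u h => h.1 rfl⟩

theorem turan_adj (p q c : ℕ) (i j : ℕ) (hij : i < j) (hj : j < p + q + c) :
    adj (turanGraph p q c) i j = if (i < p ∧ p ≤ j ∧ j < p + q) ∨ (p ≤ i ∧ p + q ≤ j) then 1 else 0 := by
  classical
  by_cases h : (i < p ∧ p ≤ j ∧ j < p + q) ∨ (p ≤ i ∧ p + q ≤ j)
  · rw [if_pos h, adj_one _ (hij.trans hj) hj]
    refine ⟨?_, ?_⟩
    · intro h'; have := congrArg Fin.val h'; simp only at this; omega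
    · simp only
      omega
  · rw [if_neg h, adj_zero _ (hij.trans hj) hj]
    rintro ⟨-, h'⟩
    simp only at h'
    omega

theorem turan_card (p q c : ℕ) :
    2 * ((triples (turanGraph p q c)).card : ℤ) = p * (p - 1) * q + q * (q - 1) * c + c * (c - 1) * p
      + 2 * p * q * c := by
  classical
  rw [card_triples]
  have h := cnt_clique (p + q) c (adj (turanGraph p q c)) (fun i => if i < p then 1 else 0)
    (adj_01 _) (fun i => by by_cases h : i < p <;> simp [h])
    (by
      intro u v huv hv
      rw [turan_adj p q c u v huv (by omega)]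
      by_cases h1 : u < p
      · by_cases h2 : v < p
        · left; rw [if_neg (by omega)]
        · right; simp [h1, h2]
      · left; rw [if_neg (by omega)])
    (by
      intro i j hij hj
      rw [turan_adj p q c _ _ (by omega) (by omega), if_pos (by omega)])
  rw [h]
  have z1 : ∀ x l, x < p → l < c → adj (turanGraph p q c) x (p + q + l) = 0 := by
    intro x l hx hl
    rw [turan_adj p q c _ _ (by omega) (by omega), if_neg (by omega)]
  have z2 : ∀ x l, p ≤ x → x < p + q → l < c → adj (turanGraph p q c) x (p + q + l) = 1 := by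
    intro x l hx hx' hl
    rw [turan_adj p q c _ _ (by omega) (by omega), if_pos (by omega)]
  have s1 : ∑ y ∈ range (p + q), ∑ x ∈ range y, adj (turanGraph p q c) x y *
        (x - ∑ l ∈ range c, adj (turanGraph p q c) x (p + q + l) *
          adj (turanGraph p q c) y (p + q + l))
      = q * ∑ x ∈ range p, (x : ℤ) := by
    rw [sum_range_add]
    have t1 : ∑ y ∈ range p, ∑ x ∈ range y, adj (turanGraph p q c) x y *
        (x - ∑ l ∈ range c, adj (turanGraph p q c) x (p + q + l) *
          adj (turanGraph p q c) y (p + q + l)) = 0 := by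
      refine sum_eq_zero fun y hy => sum_eq_zero fun x hx => ?_
      have hy' := mem_range.1 hy
      have hx' := mem_range.1 hx
      rw [turan_adj p q c x y hx' (by omega), if_neg (by omega), zero_mul]
    have t2 : ∀ i ∈ range q, ∑ x ∈ range (p + i), adj (turanGraph p q c) x (p + i) *
        (x - ∑ l ∈ range c, adj (turanGraph p q c) x (p + q + l) *
          adj (turanGraph p q c) (p + i) (p + q + l)) = ∑ x ∈ range p, (x : ℤ) := by
      intro i hi
      have hi' := mem_range.1 hi
      rw [sum_range_add]
      have u1 : ∑ x ∈ range i, adj (turanGraph p q c) (p + x) (p + i) *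
          (((p + x : ℕ) : ℤ) - ∑ l ∈ range c, adj (turanGraph p q c) (p + x) (p + q + l) *
            adj (turanGraph p q c) (p + i) (p + q + l)) = 0 := by
        refine sum_eq_zero fun x hx => ?_
        have hx' := mem_range.1 hx
        rw [turan_adj p q c (p + x) (p + i) (by omega) (by omega), if_neg (by omega), zero_mul]
      rw [u1, add_zero]
      refine sum_congr rfl fun x hx => ?_
      have hx' := mem_range.1 hx
      have u2 : ∑ l ∈ range c, adj (turanGraph p q c) x (p + q + l) *
            adj (turanGraph p q c) (p + i) (p + q + l) = 0 := by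
        refine sum_eq_zero fun l hl => ?_
        rw [z1 x l hx' (mem_range.1 hl), zero_mul]
      rw [u2, turan_adj p q c x (p + i) (by omega) (by omega), if_pos (by omega)]
      ring
    rw [t1, sum_congr rfl t2, sum_const, card_range, zero_add]
    simp
  have s2 : ∑ u ∈ range (p + q), (2 * (u : ℤ) * (∑ l ∈ range c, adj (turanGraph p q c) u (p + q + l))
            - ((∑ l ∈ range c, adj (turanGraph p q c) u (p + q + l)) ^ 2
              - ∑ l ∈ range c, adj (turanGraph p q c) u (p + q + l)))
      = ∑ i ∈ range q, (2 * ((p : ℤ) + i) * c - (c ^ 2 - c)) := by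
    rw [sum_range_add]
    have t1 : ∑ u ∈ range p, (2 * (u : ℤ) * (∑ l ∈ range c, adj (turanGraph p q c) u (p + q + l))
            - ((∑ l ∈ range c, adj (turanGraph p q c) u (p + q + l)) ^ 2
              - ∑ l ∈ range c, adj (turanGraph p q c) u (p + q + l))) = 0 := by
      refine sum_eq_zero fun u hu => ?_
      have hu' := mem_range.1 hu
      have : ∑ l ∈ range c, adj (turanGraph p q c) u (p + q + l) = 0 :=
        sum_eq_zero fun l hl => z1 u l hu' (mem_range.1 hl)
      rw [this]; norm_num
    rw [t1, zero_add]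
    refine sum_congr rfl fun i hi => ?_
    have hi' := mem_range.1 hi
    have : ∑ l ∈ range c, adj (turanGraph p q c) (p + i) (p + q + l) = c := by
      rw [sum_congr rfl fun l hl => z2 (p + i) l (by omega) (by omega) (mem_range.1 hl)]
      simp
    rw [this]
    push_cast
    ring
  have s3 : ∑ i ∈ range q, (2 * ((p : ℤ) + i) * c - (c ^ 2 - c))
      = q * (2 * p * c - (c ^ 2 - c)) + c * (2 * ∑ i ∈ range q, (i : ℤ)) := by
    have : ∑ i ∈ range q, (2 * ((p : ℤ) + i) * c - (c ^ 2 - c))
        = ∑ i ∈ range q, ((2 * (p : ℤ) * c - (c ^ 2 - c)) + c * (2 * (i : ℤ))) :=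
      sum_congr rfl fun i _ => by ring
    rw [this, sum_add_distrib, sum_const, card_range, ← mul_sum, ← mul_sum]
    simp
  rw [s1, s2, s3, gauss q]
  have g := gauss p
  push_cast
  linear_combination (q : ℤ) * g

/-- Turán's construction attains the bound. -/
theorem attained (n : ℕ) : ∃ G : SimpleGraph (Fin n),
    (∀ u v w : Fin n, u.val < cut n → v.val < cut n → w.val < cut n →
      ¬ G.Adj u v → ¬ G.Adj v w → ¬ G.Adj u w) ∧
    (triples G).card = turan n ∧ triangles G (cut n) = 0 := by
  classical
  obtain ⟨p, c, hp, hn⟩ : ∃ p c, p = (n + 1) / 3 ∧ n = p + p + c :=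
    ⟨(n + 1) / 3, n - 2 * ((n + 1) / 3), rfl, by omega⟩
  have hcut : cut n = 2 * p := by unfold cut; omega
  have hcard : ((triples (turanGraph p p c)).card : ℤ) = turan n := by
    have h1 := turan_card p p c
    obtain ⟨k, hk⟩ : ∃ k, n = 3 * k ∨ n = 3 * k + 1 ∨ n = 3 * k + 2 := ⟨n / 3, by omega⟩
    rcases hk with hk | hk | hk
    · have ht := (two_turan n k).1 hk
      have b1 : p = k := by omega
      have b2 : c = k := by omega
      subst b1 b2
      linarith
    · have ht := (two_turan n k).2.1 hk
      have b1 : p = k := by omega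
      have b2 : c = k + 1 := by omega
      subst b1 b2
      push_cast at h1
      linarith
    · have ht := (two_turan n k).2.2 hk
      have b1 : p = k + 1 := by omega
      have b2 : c = k := by omega
      subst b1 b2
      push_cast at h1
      linarith
  have hcard' : (triples (turanGraph p p c)).card = turan n := by exact_mod_cast hcard
  clear hcard
  subst hn
  refine ⟨turanGraph p p c, ?_, hcard', ?_⟩
  · intro u v w hu hv hw h1 h2 h3
    obtain ⟨h3a, h3b⟩ := h3
    have k1 : ¬ (u.val < p ∧ p ≤ v.val) := fun h => h1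
      ⟨fun e => by rw [e] at h; omega, by omega⟩
    have k2 : ¬ (v.val < p ∧ p ≤ u.val) := fun h => h1
      ⟨fun e => by rw [e] at h; omega, by omega⟩
    have k3 : ¬ (v.val < p ∧ p ≤ w.val) := fun h => h2
      ⟨fun e => by rw [e] at h; omega, by omega⟩
    have k4 : ¬ (w.val < p ∧ p ≤ v.val) := fun h => h2
      ⟨fun e => by rw [e] at h; omega, by omega⟩
    omega
  · unfold triangles
    rw [card_eq_zero, filter_eq_empty_iff]
    rintro ⟨x, y, z⟩ -
    rintro ⟨h1, h2, h3, h4, h5, h6⟩
    simp only at h1 h2 h3 h4 h5 h6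
    obtain ⟨-, h4⟩ := h4
    obtain ⟨-, h5⟩ := h5
    obtain ⟨-, h6⟩ := h6
    rw [Fin.lt_def] at h1 h2
    omega

/-- If nonadjacency is transitive on the first `m` vertices then there are no triples of them
which span exactly one edge. -/
theorem multipartite {n : ℕ} (G : SimpleGraph (Fin n)) (m : ℕ)
    (h : ∀ u v w : Fin n, u.val < m → v.val < m → w.val < m →
      ¬ G.Adj u v → ¬ G.Adj v w → ¬ G.Adj u w) : upper G m = 0 ∧ lower G m = 0 := by
  classical
  constructor
  · unfold upper
    rw [card_eq_zero, filter_eq_empty_iff]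
    rintro ⟨x, y, z⟩ -
    rintro ⟨h1, h2, h3, h4, h5, h6⟩
    simp only at h1 h2 h3 h4 h5 h6
    rw [Fin.lt_def] at h1 h2
    exact h y x z (by omega) (by omega) h3 (fun h' => h5 h'.symm) h6 h4
  · unfold lower
    rw [card_eq_zero, filter_eq_empty_iff]
    rintro ⟨x, y, z⟩ -
    rintro ⟨h1, h2, h3, h4, h5⟩
    simp only at h1 h2 h3 h4 h5
    rw [Fin.lt_def] at h1 h2
    by_cases g : G.Adj x y
    · exact h x z y (by omega) h3 (by omega) (h5.1 g) (fun h' => h4 h'.symm) g
    · have : G.Adj x z := by
        by_contra h'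
        exact g (h5.2 h')
      exact h x y z (by omega) (by omega) h3 g h4 this

open Classical in
/-- The indicator function of a set of vertices. -/
noncomputable def ind {n : ℕ} (P : Finset (Fin n)) (i : ℕ) : ℤ :=
  if ∃ hi : i < n, (⟨i, hi⟩ : Fin n) ∈ P then 1 else 0

theorem ind_01 {n : ℕ} (P : Finset (Fin n)) (i : ℕ) : ind P i = 0 ∨ ind P i = 1 := by
  unfold ind
  split_ifs
  · right; rfl
  · left; rfl

theorem ind_eq_one {n : ℕ} (P : Finset (Fin n)) (u : Fin n) : ind P u = 1 ↔ u ∈ P := by
  unfold ind
  constructor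
  · intro h
    split_ifs at h with h'
    · exact h'.2
    · exact absurd h (by norm_num)
  · intro h
    rw [if_pos ⟨u.2, h⟩]

/-- The first part bipartite and the second part complete. -/
theorem bipartite_complete {n : ℕ} (G : SimpleGraph (Fin n)) (P : Finset (Fin n))
    (hP : ∀ u v : Fin n, u.val < cut n → v.val < cut n → G.Adj u v → (u ∈ P ↔ v ∉ P))
    (hC : ∀ u v : Fin n, cut n ≤ u.val → cut n ≤ v.val → u ≠ v → G.Adj u v) :
    2 * ((triples G).card : ℤ) ≤ 2 * turan n + (if n % 3 = 1 then 2 * (n / 3 : ℕ) else 0) := by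
  obtain ⟨c, hn⟩ : ∃ c, n = cut n + c := ⟨n - cut n, by unfold cut; omega⟩
  obtain ⟨M, hM⟩ : ∃ M : ℤ, 2 * M = cut n - 2 := ⟨((n + 1) / 3 : ℕ) - 1, by unfold cut; push_cast; ring⟩
  have key : ∀ (m c : ℕ), n = m + c → cut n = m → (2 * M = m - 2) →
      2 * ((triples G).card : ℤ) ≤ m * M * (M + 1) + c * (m - M) * (m - M - 1) + m * c * (c - 1) := by
    intro m c hn hm hM
    have hcm : (c : ℤ) ≤ M + 2 := by
      unfold cut at hm
      omega
    subst hn
    rw [hm] at hP hC
    rw [card_triples]
    have e := pc_add_qc (ind P) m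
    have hAB : qc (ind P) m = m - pc (ind P) m := by linarith
    have main := core_bip m c (m - M) (adj G) (ind P) (adj_symm G) (adj_01 G) (ind_01 P) ?_ ?_
      (by linarith) (pc (ind P) m) (qc (ind P) m) rfl rfl
    · rw [hAB] at main
      have hm2 : (m : ℤ) = 2 * M + 2 := by linarith
      rw [hm2] at main ⊢
      nlinarith [main]
    · intro u v huv hv
      have hu' : u < m + c := by omega
      have hv' : v < m + c := by omega
      have b1 := hP ⟨u, hu'⟩ ⟨v, hv'⟩ (huv.trans hv) hv
      have i1 : ind P u = 1 ↔ (⟨u, hu'⟩ : Fin (m + c)) ∈ P := ind_eq_one P ⟨u, hu'⟩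
      have i2 : ind P v = 1 ↔ (⟨v, hv'⟩ : Fin (m + c)) ∈ P := ind_eq_one P ⟨v, hv'⟩
      rcases adj_01 G u v with h | h
      · left; exact h
      · right
        rw [adj_one G hu' hv'] at h
        have := b1 h
        intro heq
        rw [← i1, ← i2, heq] at this
        tauto
    · intro i j hij hj
      have hi' : m + i < m + c := by omega
      have hj' : m + j < m + c := by omega
      rw [adj_one G hi' hj']
      refine hC _ _ (by simp) (by simp) ?_
      intro h
      have := congrArg Fin.val h
      simp only at this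
      omega
  have h := key (cut n) c hn rfl hM
  obtain ⟨k, hk⟩ : ∃ k, n = 3 * k ∨ n = 3 * k + 1 ∨ n = 3 * k + 2 := ⟨n / 3, by omega⟩
  have hcut : cut n = 2 * ((n + 1) / 3) := rfl
  rcases hk with hk | hk | hk
  · have hm : cut n = 2 * k := by omega
    have ht := (two_turan n k).1 hk
    have hc : c = k := by omega
    rw [hm] at h hM
    push_cast at h hM
    have hMk : M = k - 1 := by linarith
    rw [if_neg (by omega), ht]
    rw [hMk, hc] at h
    linarith
  · have hm : cut n = 2 * k := by omega
    have ht := (two_turan n k).2.1 hk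
    have hc : c = k + 1 := by omega
    rw [hm] at h hM
    push_cast at h hM
    have hMk : M = k - 1 := by linarith
    rw [if_pos (by omega), ht, show n / 3 = k by omega]
    rw [hMk, hc] at h
    push_cast at h ⊢
    linarith
  · have hm : cut n = 2 * k + 2 := by omega
    have ht := (two_turan n k).2.2 hk
    have hc : c = k := by omega
    rw [hm] at h hM
    push_cast at h hM
    have hMk : M = k := by linarith
    rw [if_neg (by omega), ht]
    rw [hMk, hc] at h
    linarith

end Pool.Agent.H7.OG
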